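import Pool.Agent.Lib.DX.Sob
import Pool.Agent.Lib.HS.K21

/-! The inequality of Sobolev type on a compact manifold. -/

open scoped Classical Topology ContDiff ComplexOrder Matrix ENNReal NNReal
open Set MeasureTheory Complex Metric Filter

noncomputable section

namespace Pool.Agent.Lib.DX

open Pool.Agent.Lib.SV (E nsq)
open Pool.Agent.Lib.HS32
open Pool.Agent.Lib.HS21 (Kb Kb_sub Kb_cpt)

variable {n : ℕ} {M : Mf n} {H : M.Fam (Mat n)}

/-- The cut-off function in its chart. -/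
def cut (V : M.Cov) (b : Fin V.r) (z : E n) : ℂ :=
  if z ∈ (V.e b).target then V.χ b ((V.e b).symm z) else 0

theorem cut_ev (V : M.Cov) (b : Fin V.r) {z : E n} (hz : z ∉ Kb V b) (g : E n → ℂ) :
    (fun w => cut V b w * g w) =ᶠ[𝓝 z] fun _ => 0 := by
  filter_upwards [(Kb_cpt V b).isClosed.isOpen_compl.mem_nhds hz] with w hw
  rw [cut]
  split_ifs with h
  · by_cases h0 : V.χ b ((V.e b).symm w) = 0
    · rw [h0, ofReal_zero, zero_mul]
    · have := (V.supp b _ h0).2
      rw [(V.e b).right_inv h] at this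
      exact absurd (ball_subset_closedBall this) hw
  · exact zero_mul _

theorem cut_sm (V : M.Cov) (b : Fin V.r) {g : E n → ℂ}
    (hg : ∀ z ∈ (V.e b).target, ContDiffAt ℝ ∞ g z) (z : E n) :
    ContDiffAt ℝ ∞ (fun w => cut V b w * g w) z := by
  by_cases hz : z ∈ (V.e b).target
  · refine ((cd_ofReal (V.sm b _ (V.mem b) z hz)).mul (hg z hz)).congr_of_eventuallyEq ?_
    filter_upwards [(V.e b).open_target.mem_nhds hz] with w hw
    rw [cut, if_pos hw]
    rfl
  · exact contDiffAt_const.congr_of_eventuallyEq (cut_ev V b (fun h => hz (Kb_sub V b h)) g)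

theorem chi_le (V : M.Cov) (b : Fin V.r) (x : M.X) : V.χ b x ^ 2 ≤ 1 :=
  V.sum x ▸ Finset.single_le_sum (f := fun a => V.χ a x ^ 2) (fun _ _ => sq_nonneg _)
    (Finset.mem_univ b)

theorem nsq_add (a b : ℂ) : normSq (a + b) ≤ 2 * normSq a + 2 * normSq b := by
  simp only [normSq_apply, add_re, add_im]
  nlinarith [sq_nonneg (a.re - b.re), sq_nonneg (a.im - b.im)]

theorem g2_cut (V : M.Cov) (b : Fin V.r) : ∃ C : ℝ≥0, ∀ q : E n → E n,
    (∀ i, ∀ z ∈ (V.e b).target, ContDiffAt ℝ ∞ (fun w => q w i) z) → ∀ z,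
      ENNReal.ofReal (g2 (fun w i => cut V b w * q w i) z) ≤
        (Kb V b).indicator (fun z => C * ENNReal.ofReal (g2 q z)) z := by
  have s : ∀ z, ContDiffAt ℝ ∞ (cut V b) z := fun z => by
    simpa using cut_sm V b (g := fun _ => 1) (fun _ _ => contDiffAt_const) z
  obtain ⟨D, hD⟩ := (Kb_cpt V b).exists_bound_of_continuousOn
    (f := fun z => ∑ l, normSq (dzb l (cut V b) z)) (continuous_finsetSum _ fun l _ =>
      continuous_normSq.comp (continuous_iff_continuousAt.2 fun z =>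
        (cd_dzb (s z) l).continuousAt)).continuousOn
  refine ⟨(2 * D + 2).toNNReal, fun q hq z => ?_⟩
  by_cases hz : z ∈ Kb V b
  · have ht := Kb_sub V b hz
    have D1 := (le_abs_self _).trans (hD z hz)
    have D0 : 0 ≤ D := (norm_nonneg _).trans (hD z hz)
    have c1 : normSq (cut V b z) ≤ 1 := by
      rw [cut, if_pos ht, normSq_ofReal, ← sq]
      exact chi_le V b _
    rw [indicator_of_mem hz, ← ENNReal.ofReal_coe_nnreal, Real.coe_toNNReal _ (by positivity),
      ← ENNReal.ofReal_mul (by positivity), g2, g2, Finset.mul_sum]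
    refine ENNReal.ofReal_le_ofReal (Finset.sum_le_sum fun i _ => ?_)
    have a0 := normSq_nonneg (q z i)
    have b0 : 0 ≤ ∑ l, normSq (dzb l (fun w => q w i) z) :=
      Finset.sum_nonneg fun l _ => normSq_nonneg _
    have h1 : ∑ l, normSq (dzb l (fun w => cut V b w * q w i) z) ≤
        ∑ l, (2 * normSq (q z i) * normSq (dzb l (cut V b) z) +
          2 * normSq (dzb l (fun w => q w i) z)) := Finset.sum_le_sum fun l _ => by
      rw [dzb_mul (cd_diff (s z)) (cd_diff (hq i z ht))]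
      refine (nsq_add _ _).trans ?_
      rw [map_mul, map_mul]
      nlinarith [normSq_nonneg (dzb l (fun w => q w i) z)]
    rw [Finset.sum_add_distrib, ← Finset.mul_sum, ← Finset.mul_sum] at h1
    rw [map_mul]
    nlinarith [mul_le_mul_of_nonneg_left D1 a0, mul_nonneg D0 b0]
  · have : g2 (fun w i => cut V b w * q w i) z = 0 := Finset.sum_eq_zero fun i _ => by
      have h := cut_ev V b hz fun w => q w i
      simp only [dzb_congr h, dzb_const, h.eq_of_nhds, normSq_zero, Finset.sum_const_zero, add_zero]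
    rw [this, ENNReal.ofReal_zero]
    exact zero_le

theorem transfer [M.Cpt] (hH : M.Met H) (V : M.Cov) (b : Fin V.r) : ∃ C : ℝ≥0,
    ∀ f : M.X → ℝ≥0∞, ∫⁻ x in (V.e b).symm '' Kb V b, f x ∂M.mu H ≤
        C * ∫⁻ z in Kb V b, f ((V.e b).symm z) ∧
      ∫⁻ z in Kb V b, f ((V.e b).symm z) ≤ C * ∫⁻ x, f x ∂M.mu H := by
  obtain ⟨C, h1, hC⟩ := (mBD n M H hH).2.2.1 _ (V.mem b) _ (Kb_cpt V b) (Kb_sub V b)
  have mK := (Kb_cpt V b).isClosed.measurableSet
  have h := ((mMU n M H hH).2.2.2.2.2.1 _ (V.mem b) _ mK (Kb_sub V b)).2.1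
  have c0 : 0 < C := one_pos.trans_le h1
  refine ⟨C.toNNReal, fun f => ⟨?_, ?_⟩⟩
  · rw [h, ← lintegral_const_mul' _ _ ENNReal.coe_ne_top]
    exact setLIntegral_mono' mK fun z hz =>
      mul_le_mul_left (ENNReal.ofReal_le_ofReal (hC z hz).2.2.2) _
  · refine le_trans ?_ (mul_le_mul_right (setLIntegral_le_lintegral
      ((V.e b).symm '' Kb V b) _) _)
    rw [h, ← lintegral_const_mul' _ _ ENNReal.coe_ne_top]
    refine setLIntegral_mono' mK fun z hz => ?_
    rw [← mul_assoc]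
    refine le_mul_of_one_le_left' ?_
    rw [show (C.toNNReal : ℝ≥0∞) = ENNReal.ofReal C from rfl, ← ENNReal.ofReal_mul c0.le]
    refine ENNReal.one_le_ofReal.2 ?_
    rw [← mul_inv_cancel₀ c0.ne']
    exact mul_le_mul_of_nonneg_left (hC z hz).2.2.1 c0.le

theorem abs_le [M.Cpt] (hn : 0 < n) (hH : M.Met H) (V : M.Cov) : ∃ C : ℝ≥0,
    ∀ (q : Fin V.r → E n → E n) (Y R ρ : M.X → ℝ≥0∞), Measurable Y → Measurable ρ →
    (∀ b i, ∀ z ∈ (V.e b).target, ContDiffAt ℝ ∞ (fun w => q b w i) z) →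
    (∀ b, ∀ z ∈ Kb V b, Y ((V.e b).symm z) ≤ ENNReal.ofReal (nsq (q b z)) ∧
      ENNReal.ofReal (g2 (q b) z) ≤ R ((V.e b).symm z)) →
    ∫⁻ x, ρ x * Y x ∂M.mu H ≤ C * (∫⁻ x, ρ x ^ (2 * n : ℝ) ∂M.mu H) ^ (1 / (2 * n : ℝ)) *
      ∫⁻ x, R x ∂M.mu H := by
  obtain ⟨C0, h0⟩ := sob hn
  choose C1 h1 using g2_cut V
  choose C2 h2 using transfer hH V
  have n0 : (0 : ℝ) < 2 * n := by positivity
  refine ⟨∑ b, C2 b * (C0 * C2 b ^ (1 / (2 * n : ℝ)) * (C1 b * C2 b)),
    fun q Y R ρ mY mρ hq hb => ?_⟩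
  have e : ∀ x, ρ x * Y x = ∑ b, ENNReal.ofReal (V.χ b x ^ 2) * (ρ x * Y x) := fun x => by
    rw [← Finset.sum_mul, ← ENNReal.ofReal_sum_of_nonneg fun b _ => sq_nonneg _, V.sum,
      ENNReal.ofReal_one, one_mul]
  rw [lintegral_congr e, lintegral_finsetSum
    (f := fun b x => ENNReal.ofReal (V.χ b x ^ 2) * (ρ x * Y x)) _ fun b _ =>
    ((V.sm b).continuous.pow 2).measurable.ennreal_ofReal.mul (mρ.mul mY), ENNReal.ofNNReal_finsetSum,
    Finset.sum_mul, Finset.sum_mul]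
  refine Finset.sum_le_sum fun b _ => ?_
  have mK := (Kb_cpt V b).isClosed.measurableSet
  have sp : Function.support (fun x => ENNReal.ofReal (V.χ b x ^ 2) * (ρ x * Y x)) ⊆
      (V.e b).symm '' Kb V b := fun x hx => by
    obtain ⟨a1, a2⟩ := V.supp b x fun h => hx (by simp [h])
    exact ⟨_, ball_subset_closedBall a2, (V.e b).left_inv a1⟩
  have k := h0 (fun w i => cut V b w * q b w i) ((Kb V b).indicator fun z => ρ ((V.e b).symm z))
    (fun i => cut_sm V b (hq b i))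
    (fun i => HasCompactSupport.intro (Kb_cpt V b) fun z hz =>
      (cut_ev V b hz fun w => q b w i).eq_of_nhds)
    ((aemeasurable_indicator_iff mK).2 (mρ.comp_aemeasurable
      (((V.e b).continuousOn_symm.mono (Kb_sub V b)).aemeasurable mK)))
  have k1 : ∫⁻ z, (Kb V b).indicator (fun z => ρ ((V.e b).symm z)) z ^ (2 * n : ℝ) ≤
      C2 b * ∫⁻ x, ρ x ^ (2 * n : ℝ) ∂M.mu H := by
    refine le_trans (le_of_eq ?_) (h2 b fun x => ρ x ^ (2 * n : ℝ)).2
    rw [← lintegral_indicator mK]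
    refine lintegral_congr fun z => ?_
    by_cases hz : z ∈ Kb V b
    · simp only [indicator_of_mem hz]
    · simp only [indicator_of_notMem hz, ENNReal.zero_rpow_of_pos n0]
  have k2 : ∫⁻ z, ENNReal.ofReal (g2 (fun w i => cut V b w * q b w i) z) ≤
      C1 b * (C2 b * ∫⁻ x, R x ∂M.mu H) := by
    refine (lintegral_mono (h1 b _ (hq b))).trans ?_
    rw [lintegral_indicator mK, lintegral_const_mul' _ _ ENNReal.coe_ne_top]
    exact mul_le_mul_right ((setLIntegral_mono' mK fun z hz => (hb b z hz).2).trans (h2 b R).2) _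
  have k3 : ∫⁻ z in Kb V b, ENNReal.ofReal (V.χ b ((V.e b).symm z) ^ 2) *
      (ρ ((V.e b).symm z) * Y ((V.e b).symm z)) ≤ _ := le_trans ?_ k
  · rw [← setLIntegral_eq_of_support_subset sp]
    refine (h2 b _).1.trans ((mul_le_mul_right (k3.trans (mul_le_mul' (mul_le_mul_right
      (ENNReal.rpow_le_rpow k1 (by positivity)) _) k2)) _).trans (le_of_eq ?_))
    rw [ENNReal.mul_rpow_of_nonneg _ _ (by positivity)]
    push_cast
    rw [ENNReal.coe_rpow_of_nonneg _ (by positivity)]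
    ring
  · refine (setLIntegral_mono' mK fun z hz => ?_).trans (setLIntegral_le_lintegral (Kb V b) _)
    rw [indicator_of_mem hz, mul_left_comm]
    refine mul_le_mul_right ((mul_le_mul_right (hb b z hz).1 _).trans (le_of_eq ?_)) _
    rw [← ENNReal.ofReal_mul (sq_nonneg _), nsq, nsq, Finset.mul_sum]
    simp only [cut, if_pos (Kb_sub V b hz), map_mul, normSq_ofReal, sq]

end Pool.Agent.Lib.DX
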