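import Pool.Agent.Lib.KP.B_SIU
import Pool.Agent.Lib.KP.B_BOXOK
import Pool.Agent.Lib.KP.B_IPB

/-! Families that are sections up to holomorphic functions: formulas of Green and Bochner. -/

open scoped Classical Topology ContDiff ComplexOrder Matrix ENNReal
open Set MeasureTheory Complex Metric Filter

noncomputable section

namespace Pool.Agent.Lib.DX

open Pool.Agent.Lib.SV (E)
open Pool.Agent.Lib.HS32 Pool.Agent.Lib.HS21 Pool.Agent.Lib.KP
open Pool.Agent.Lib.HS68 (dual wdv met_loc clo_kl Loc Kl)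
open Pool.Agent.Lib.HS.SIUK (dzb_hol alg)
open Pool.Agent.Lib.KP.T60 (phC u2 phC_coe phC_sm exp_phC hess_phC expC_cmp)

variable {n : ℕ} {M : Mf n} {H : M.Fam (Mat n)} {G : M.Co} {φ : M.Fam ℝ} {a s : M.Fam ℂ}
  {e : M.Ch} {z : E n}

/-- A smooth family that is a section up to holomorphic functions. -/
structure Aff (G : M.Co) (a : M.Fam ℂ) : Prop where
  sm : M.All fun e z => ContDiffAt ℝ ∞ (a e) z
  cmp : M.Ov fun e e' x => ∃ η, HolN η (e' x) ∧
    a e' =ᶠ[𝓝 (e' x)] fun w => a e (e (e'.symm w)) * G.c e e' (e'.symm w) + η w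

theorem Aff.sub (h : Aff G a) (hs : M.SecC G s) : Aff G (a - s) :=
  ⟨fun e he z hz => (h.sm e he z hz).sub (hs.sm e he z hz), fun e he e' he' x hx hx' => by
    obtain ⟨η, h1, h2⟩ := h.cmp e he e' he' x hx hx'
    refine ⟨η, h1, ?_⟩
    filter_upwards [h2, hs.ev e he e' he' x hx hx'] with w h3 h4
    simp only [Pi.sub_apply, h3, h4]
    ring⟩

theorem Aff.dual (hH : M.Met H) (h : Aff G a) :
    M.Ov fun e e' x => M.J e e' x *ᵥ dual (H e') (a e') (e' x) =
      G.c e e' x • dual (H e) (a e) (e x) := by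
  intro e he e' he' x hx hx'
  obtain ⟨hN, hJ, -, -, -⟩ := (mTR n M).2.1 e he e' he' x hx hx'
  have hψ : (e ∘ e'.symm) (e' x) = e x := by simp [e'.left_inv hx']
  obtain ⟨c1, -, -, -, -, -, -, -, -, c10, -⟩ := mCHN n _ _ hN
  have d1 : DifferentiableAt ℝ (a e) ((e ∘ e'.symm) (e' x)) := by
    rw [hψ]
    exact cd_diff (h.sm e he _ (e.map_source hx))
  have d2 : DifferentiableAt ℂ (fun y => G.c e e' (e'.symm y)) (e' x) :=
    (G.hol e he e' he' x hx hx').self_of_nhds
  obtain ⟨η, h1, heq⟩ := h.cmp e he e' he' x hx hx'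
  have d3 := d1.comp _ (cd_diff c1)
  have hb : (fun i => dzb i (a e') (e' x)) =
      G.c e e' x • ((M.J e e' x)ᴴ *ᵥ fun b => dzb b (a e) (e x)) := by
    funext i
    have heq' : a e' =ᶠ[𝓝 (e' x)] fun y =>
        (a e ∘ (e ∘ e'.symm)) y * G.c e e' (e'.symm y) + η y := heq
    rw [dzb_congr heq', dzb_add (f := fun y => (a e ∘ (e ∘ e'.symm)) y * G.c e e' (e'.symm y))
      (d3.fun_mul (d2.restrictScalars ℝ)) (h1.self_of_nhds.restrictScalars ℝ),
      dzb_hol h1.self_of_nhds, dzb_mul d3 (d2.restrictScalars ℝ), dzb_hol d2,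
      (c10 _ d1 i).2, hψ, mul_zero, add_zero, add_zero, mul_comm, e'.left_inv hx']
    simp only [Matrix.mulVec, dotProduct, Matrix.conjTranspose_apply, Mf.J, Pi.smul_apply,
      smul_eq_mul]
    congr 1
    exact Finset.sum_congr rfl fun a _ => mul_comm _ _
  simp only [HS68.dual]
  rw [hb, hH.cmp e he e' he' x hx hx', alg hJ]

theorem Aff.ddual (hH : M.Met H) (h : Aff G a) :
    M.Ov fun e e' x => ∀ k l, ∑ b, M.J e e' x k b *
      dzb l (fun y => HS68.dual (H e') (a e') y b) (e' x) = G.c e e' x *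
        ∑ b, dzb b (fun y => HS68.dual (H e) (a e) y k) (e x) * star (M.J e e' x b l) := by
  intro e he e' he' x hx hx' k l
  obtain ⟨hN, hJ, -, hev, -⟩ := (mTR n M).2.1 e he e' he' x hx hx'
  have hψ : (e ∘ e'.symm) (e' x) = e x := by simp [e'.left_inv hx']
  obtain ⟨c1, c2, -, c4, -, -, -, -, -, c10, -⟩ := mCHN n _ _ hN
  have s1 := (met_loc hH he (e.map_source hx)).smooth_dual (h.sm e he _ (e.map_source hx))
  have s2 := (met_loc hH he' (e'.map_source hx')).smooth_dual (h.sm e' he' _ (e'.map_source hx'))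
  have d1 : DifferentiableAt ℝ (fun y => HS68.dual (H e) (a e) y k) ((e ∘ e'.symm) (e' x)) := by
    rw [hψ]
    exact cd_diff (contDiffAt_pi.1 s1 k)
  have d2 : DifferentiableAt ℂ (fun y => G.c e e' (e'.symm y)) (e' x) :=
    (G.hol e he e' he' x hx hx').self_of_nhds
  have heq : (fun y => ∑ b, jm (e ∘ e'.symm) y k b * HS68.dual (H e') (a e') y b) =ᶠ[𝓝 (e' x)]
      fun y => G.c e e' (e'.symm y) *
        ((fun y => HS68.dual (H e) (a e) y k) ∘ (e ∘ e'.symm)) y := by
    filter_upwards [hev] with y hy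
    have := congrFun (h.dual hH e he e' he' _ hy.2.1 hy.2.2.1) k
    rw [hy.2.2.2.2.2.1, hy.2.2.2.2.2.2] at this
    exact this
  have h := dzb_congr (j := l) heq
  rw [dzb_mul (d2.restrictScalars ℝ) (d1.comp _ (cd_diff c1)), dzb_hol d2, (c10 _ d1 l).2, hψ,
    zero_mul, zero_add, e'.left_inv hx',
    dzb_sum fun b _ => (c2.diff k b).fun_mul (cd_diff (contDiffAt_pi.1 s2 b))] at h
  refine Eq.trans (Finset.sum_congr rfl fun b _ => ?_) h
  rw [dzb_mul (c2.diff k b) (cd_diff (contDiffAt_pi.1 s2 b)),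
    show dzb l (fun y => jm (e ∘ e'.symm) y k b) (e' x) = 0 from congrFun (congrFun (c4 l) k) b,
    zero_mul, zero_add]
  rfl

theorem box_eq (hH : M.Kae H) (hw : M.WtC G φ) (he : e ∈ M.C) (hz : z ∈ e.target)
    (hs : ContDiffAt ℝ ∞ (a e) z) :
    wdv (phC M H φ e) (dual (H e) (a e)) z = (boxC M H φ).ap a e z := by
  have K := met_loc hH.toMet he hz
  have h1 := K.smooth_ld
  rw [K.wdv_dual (phC_sm hH.toMet hw he hz) hs, phC_coe]
  simp only [Op.ap, lop, boxC, Pi.zero_apply, zero_mul, Finset.sum_const_zero, add_zero]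
  congr 1
  refine Finset.sum_congr rfl fun l _ => ?_
  congr 1
  have h2 := K.div_cof (clo_kl hH.toClo he hz) l
  have h3 : ∀ k, dz k (fun y => (H e y).det * (H e y)⁻¹ k l) z = (H e z).det *
      (dz k (ld (H e)) z * (H e z)⁻¹ k l + dz k (fun y => (H e y)⁻¹ k l) z) := fun k => by
    rw [dz_mul (cd_diff K.sm.det) (K.smM_inv.diff k l), K.dz_det, K.dz_ld]
    ring
  simp only [h3] at h2
  rw [← Finset.mul_sum] at h2
  have h4 := (mul_eq_zero.1 h2).resolve_left K.det_ne
  rw [eq_neg_iff_add_eq_zero, ← Finset.sum_add_distrib, ← h4]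
  refine Finset.sum_congr rfl fun k _ => ?_
  rw [dz_sub (cd_diff (hw.smC e he z hz)) (cd_diff h1)]
  ring

theorem Aff.box (hM : M.Met H) (hφ : M.WtC G φ) (h : Aff G a) :
    M.SecC G ((boxC M H φ).ap a) := by
  have sφ := hφ.smC
  refine ⟨fun e he z hz => ?_, fun e he e' he' x hx hx' => ?_⟩
  · beta_reduce
    rw [show (boxC M H φ).ap a e = _ from funext (T24.ap_eq M H φ a e)]
    exact (((hM.sm e he z hz).inv (hM.det_ne e he z hz)).mul ((smM_hess (h.sm e he z hz)).sub
      (smM_dd (h.sm e he z hz) (sφ e he z hz)))).trace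
  · obtain ⟨t1, t2, -⟩ := (mTR n M).2.1 e he e' he' x hx hx'
    have ex : (e ∘ e'.symm) (e' x) = e x := by simp [e'.left_inv hx']
    obtain ⟨η, h1, h2⟩ := h.cmp e he e' he' x hx hx'
    obtain ⟨k1, -, k2, -⟩ := (mHOL n _ _).2.2 h1
    have s' := h.sm.at he' hx'
    have := HS.BOXOK.loc mCHN mHOL (g := fun y => G.c e e' (e'.symm y)) (s := a e)
      (s' := fun w => a e' w - η w)
      (φ := fun w => (φ e w : ℂ)) (φ' := fun w => (φ e' w : ℂ)) t1 (G.hol e he e' he' x hx hx')
      (by simpa only [e'.left_inv hx'] using G.ne e he e' he' x hx hx')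
      (ex ▸ h.sm.at he hx) (ex ▸ sφ.at he hx) (h2.mono fun y hy => sub_eq_iff_eq_add.2 hy)
      ((hφ.ev e he e' he' x hx hx').mono fun y hy => by
        beta_reduce at hy ⊢
        rw [hy, ofReal_add]
        rfl)
    have k3 : dd (fun w => a e' w - η w) (fun w => (φ e' w : ℂ)) (e' x) =
        dd (a e') (fun w => (φ e' w : ℂ)) (e' x) := by
      ext i j
      simp only [dd, Matrix.of_apply, dzb_sub (cd_diff s') (cd_diff k1), dzb_hol h1.self_of_nhds,
        sub_zero]
    rw [hess_sub s' k1, k2, sub_zero, k3] at this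
    rw [T24.ap_eq, T24.ap_eq, this, ex, hM.cmp e he e' he' x hx hx', e'.left_inv hx']
    exact HS.BOXOK.tr_conj t2 _

theorem Aff.green [hM : M.Cpt] (hH : M.Kae H) (hw : M.WtC G φ) (h : Aff G a) (hs : M.HSecC G s) :
    ∫ x, spC M φ ((boxC M H φ).ap a) s x ∂M.mu H = 0 := by
  have hm := hH.toMet
  have hV : M.VDen fun e w k => HS68.dual (H e) (a e) w k * star (s e w) *
      (Real.exp (-phC M H φ e w) : ℝ) := by
    refine ⟨fun e he z hz => contDiffAt_pi.2 fun k => ?_, fun e he e' he' x hx hx' => ?_⟩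
    · exact ((contDiffAt_pi.1 ((met_loc hm he hz).smooth_dual (h.sm e he z hz)) k).mul
        (cd_star (hs.sm e he z hz))).mul (cd_ofReal (phC_sm hm hw he hz).neg.exp)
    have e1 : ∀ (b : M.Ch) (y : E n), (fun k => HS68.dual (H b) (a b) y k * star (s b y) *
        (Real.exp (-phC M H φ b y) : ℝ)) = (star (s b y) * (Real.exp (-phC M H φ b y) : ℝ)) •
          HS68.dual (H b) (a b) y := fun b y => by
      funext k
      rw [Pi.smul_apply, smul_eq_mul]
      ring
    beta_reduce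
    rw [e1, e1, Matrix.mulVec_smul, h.dual hm e he e' he' x hx hx', hs.cmp e he e' he' x hx hx',
      smul_smul, smul_smul, star_mul']
    congr 1
    linear_combination star (s e (e x)) * expC_cmp hm hw he he' hx hx'
  rw [← ((mDIV n M H hm).2.1 _ hV).2.2 hM]
  refine integral_congr_ae (Eventually.of_forall fun x => ?_)
  have he := Mf.ch_mem x
  have hz := Mf.ch_tgt x
  have := HS68.adj_div (phC_sm hm hw he hz) ((met_loc hm he hz).smooth_dual (h.sm _ he _ hz))
    (hs.sm _ he _ hz)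
  simp only [dzb_hol (hs.hol _ he _ hz), star_zero, mul_zero, Finset.sum_const_zero,
    add_zero] at this
  simp only [spC, Mf.ev]
  rw [this, box_eq hH hw he hz (h.sm _ he _ hz), exp_phC hm he hz, ofReal_mul,
    Mf.herm_det (hm.herm _ he _ hz), ← mul_assoc, mul_div_cancel_right₀ _ (hm.det_ne _ he _ hz)]

theorem Aff.vden (hH : M.Met H) (hw : M.WtC G φ) (h : Aff G a) : M.VDen (u2 M H φ a) := by
  refine ⟨fun e he z hz => contDiffAt_pi.2 fun k => ?_, fun e he e' he' x hx hx' => ?_⟩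
  · have s1 := (met_loc hH he hz).smooth_dual (h.sm e he z hz)
    have s2 := phC_sm hH hw he hz
    exact (ContDiffAt.sum fun l _ => (cd_dzb (contDiffAt_pi.1 s1 k) l).mul
      (cd_star (contDiffAt_pi.1 s1 l))).mul (cd_ofReal s2.neg.exp)
  have h2 := expC_cmp hH hw he he' hx hx'
  have h3 := h.dual hH e he e' he' x hx hx'
  have h4 := h.ddual hH e he e' he' x hx hx'
  funext k
  have h5 : ∀ b, ∑ l, star (M.J e e' x b l) * star (HS68.dual (H e') (a e') (e' x) l) =
      star (G.c e e' x) * star (HS68.dual (H e) (a e) (e x) b) := fun b => by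
    have := congrArg star (congrFun h3 b)
    simpa only [Matrix.mulVec, dotProduct, star_sum, star_mul', Pi.smul_apply, smul_eq_mul]
      using this
  have h6 : ∑ c, M.J e e' x k c * ∑ l, dzb l (fun y => HS68.dual (H e') (a e') y c) (e' x) *
      star (HS68.dual (H e') (a e') (e' x) l) = G.c e e' x * star (G.c e e' x) *
        ∑ b, dzb b (fun y => HS68.dual (H e) (a e) y k) (e x) *
          star (HS68.dual (H e) (a e) (e x) b) := by
    calc _ = ∑ l, (∑ c, M.J e e' x k c * dzb l (fun y => HS68.dual (H e') (a e') y c) (e' x)) *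
          star (HS68.dual (H e') (a e') (e' x) l) := by
          simp only [Finset.mul_sum, Finset.sum_mul, mul_assoc]
          exact Finset.sum_comm
      _ = G.c e e' x * ∑ b, dzb b (fun y => HS68.dual (H e) (a e) y k) (e x) *
          ∑ l, star (M.J e e' x b l) * star (HS68.dual (H e') (a e') (e' x) l) := by
          simp only [h4 k]
          simp only [Finset.mul_sum, Finset.sum_mul, mul_assoc]
          exact Finset.sum_comm
      _ = _ := by
          simp only [h5]
          rw [mul_assoc]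
          congr 1
          rw [Finset.mul_sum]
          exact Finset.sum_congr rfl fun b _ => mul_left_comm _ _ _
  simp only [Matrix.mulVec, dotProduct, u2, Pi.smul_apply, smul_eq_mul, ← mul_assoc]
  rw [← Finset.sum_mul, h6]
  linear_combination (∑ b, dzb b (fun y => HS68.dual (H e) (a e) y k) (e x) *
    star (HS68.dual (H e) (a e) (e x) b)) * h2

/-- The last term of the identity of Bochner. -/
def qq (W : E n → E n) (z : E n) : ℝ :=
  (∑ k, ∑ l, dzb l (fun x => W x k) z * star (dzb k (fun x => W x l) z)).re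

theorem Aff.boch [hM : M.Cpt] (hH : M.Kae H) (hw : M.WtC G φ) (h : Aff G a)
    (h0 : M.All fun e z => (boxC M H φ).ap a e z = 0) : ∃ Z : M.X → ℝ, Continuous Z ∧
      ∫ x, Z x ∂M.mu H = 0 ∧ M.Rep Z fun e z => (nq (M.hw φ e z + M.ric H e z)
        (HS68.dual (H e) (a e) z) + qq (HS68.dual (H e) (a e)) z) * Real.exp (-φ e z) := by
  have hm := hH.toMet
  obtain ⟨b0, b1, b2⟩ := (mDIV n M H hm).2.1 _ (h.vden hm hw)
  refine ⟨fun x => (M.ev (fun e z => dv (u2 M H φ a e) z / (H e z).det) x).re,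
    continuous_re.comp b1.continuous, ?_, fun e he z hz => ?_⟩
  · have := integral_re ((mMU n M H hm).2.2.2.2.1 ℂ _ b1.continuous)
    rw [b2 hM, map_zero] at this
    exact this
  have K := met_loc hm he hz
  have h1 := HS68.hor_div (phC_sm hm hw he hz) (K.smooth_dual (h.sm e he z hz))
  have h2 : ∀ᶠ w in 𝓝 z, wdv (phC M H φ e) (HS68.dual (H e) (a e)) w = 0 :=
    (e.open_target.eventually_mem hz).mono fun w hw' =>
      (box_eq hH hw he hw' (h.sm e he w hw')).trans (h0 e he w hw')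
  have h3 : dvb (fun w l => wdv (phC M H φ e) (HS68.dual (H e) (a e)) w *
      star (HS68.dual (H e) (a e) w l) * (Real.exp (-phC M H φ e w) : ℝ)) z = 0 :=
    Finset.sum_eq_zero fun l _ => by
      rw [dzb_congr (g := fun _ => 0) (h2.mono fun w hw' => by simp only [hw', zero_mul]),
        dzb_const]
  rw [h3, h2.self_of_nhds, zero_mul, zero_sub, zero_sub, ← neg_add', neg_mul, neg_inj,
    hess_phC hm hw he hz, exp_phC hm he hz] at h1
  have h4 := b0.rep e he z hz
  beta_reduce at h4 ⊢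
  rw [h4, show dv (u2 M H φ a e) z = _ from h1, ofReal_mul, Mf.herm_det K.pos.1, ← mul_assoc,
    mul_div_cancel_right₀ _ K.det_ne, re_mul_ofReal, add_re]
  rfl

theorem symm_lo {A T : Mat n} {C : ℝ} (hA : A.PosDef) (hs : (A * T).IsSymm) (hC : 0 ≤ C)
    (h1 : (C • A - 1).PosSemidef) (h2 : (C • (1 : Mat n) - A).PosSemidef) :
    ∑ k, ∑ l, normSq (T k l) ≤ C ^ 2 * (∑ k, ∑ l, T k l * star (T l k)).re := by
  have hT : T = A⁻¹ * (A * T) := by
    rw [← Matrix.mul_assoc, Matrix.nonsing_inv_mul _ hA.det_pos.ne'.isUnit, Matrix.one_mul]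
  have e1 : (A⁻¹)ᵀ * (A * T)ᴴ = Tᴴᵀ := by
    conv_rhs => rw [hT, Matrix.conjTranspose_mul, hA.inv.1.eq, Matrix.transpose_mul]
    congr 1
    conv_lhs => rw [← hs.eq]
    rfl
  have e2 : ∑ k, ∑ l, T k l * star (T l k) = (T * (A⁻¹)ᵀ * Tᴴ * A).trace := by
    rw [Matrix.mul_assoc (T * (A⁻¹)ᵀ), ← hA.1.eq, ← Matrix.conjTranspose_mul, hA.1.eq,
      Matrix.mul_assoc, e1]
    rfl
  have e3 : ∑ k, ∑ l, normSq (T k l) = (Tᴴ * T * 1).trace.re := by
    rw [mul_one, Finset.sum_comm]
    simp only [Matrix.trace, Matrix.diag_apply, Matrix.mul_apply, Matrix.conjTranspose_apply,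
      re_sum, star_def, ← normSq_eq_conj_mul_self, ofReal_re]
  have p1 := (HS76.inv_le_of_le Matrix.PosDef.one hA h2).transpose
  rw [inv_one, Matrix.transpose_sub, Matrix.transpose_one, Matrix.transpose_smul] at p1
  have k1 := I76.tr_mono (Matrix.posSemidef_conjTranspose_mul_self T) (b := 1) (c := C) (B := 1)
    (B' := (A⁻¹)ᵀ) (by rwa [one_smul])
  have k2 := I76.tr_mono (hA.inv.posSemidef.transpose.mul_mul_conjTranspose_same T) (b := 1)
    (c := C) (B := 1) (B' := A) (by rwa [one_smul])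
  rw [mul_one, Matrix.trace_mul_comm, ← Matrix.mul_assoc] at k2
  rw [e2, e3]
  nlinarith [mul_le_mul_of_nonneg_left k2 hC]

theorem qq_lo {A : E n → Mat n} (h : Loc A z) (hK : Kl A z) {f : E n → ℂ}
    (hs : ContDiffAt ℝ ∞ f z) {C : ℝ} (hC : 0 ≤ C) (h1 : (C • A z - 1).PosSemidef)
    (h2 : (C • (1 : Mat n) - A z).PosSemidef) :
    ∑ k, ∑ l, normSq (dzb l (fun x => dual A f x k) z) ≤ C ^ 2 * qq (dual A f) z := by
  obtain ⟨B, hB, p1, hu⟩ := h.rep
  obtain ⟨b, hb⟩ := HS68.exists_rep hs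
  have p2 : HS68.RepM (Matrix.of fun k l => (HS68.germDR z).db l
      ((B⁻¹ *ᵥ fun i => (HS68.germDR z).db i b) k))
      fun w => Matrix.of fun k l => dzb l (fun x => dual A f x k) w := fun k l =>
    (HS68.rep_dual hB h.det_ne hb k).db l
  have p3 := (HS68.germDR z).hor_symm p1 hu (hB.kl hK) b
  exact symm_lo (T := Matrix.of fun k l => dzb l (fun x => dual A f x k) z) h.pos
    (Matrix.IsSymm.ext fun i j => (hB.mul p2 j i).val (hB.mul p2 i j) (p3.apply i j)) hC h1 h2

end Pool.Agent.Lib.DX
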