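import Pool.Agent.Lib.DX.Core

/-! Extension of sections on manifolds with non-positive curvature. -/

open scoped Classical Topology ContDiff ComplexOrder Matrix ENNReal NNReal
open Set MeasureTheory Complex Metric Filter

noncomputable section

namespace Pool.Agent.Lib.DX

open Pool.Agent.Lib.SV (E)
open Pool.Agent.Lib.HS32 Pool.Agent.Lib.HS32.Mf Pool.Agent.Lib.KP

variable {n : ℕ} {M : Mf n} {H P Q : M.Fam (Mat n)} {A B L : M.Co} {φ : M.Fam ℝ}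
  {f g σ : M.Fam ℂ} {k : ℕ}

/-- The product of two cocycles. -/
def cmul (A B : M.Co) : M.Co where
  c e e' x := A.c e e' x * B.c e e' x
  hol e he e' he' x hx hx' := ((A.hol e he e' he' x hx hx').and (B.hol e he e' he' x hx hx')).mono
    fun _ h => h.1.mul h.2
  ne e he e' he' x hx hx' := mul_ne_zero (A.ne e he e' he' x hx hx') (B.ne e he e' he' x hx hx')
  mul e he e' he' x hx hx' e'' he'' hx'' := by
    rw [A.mul e he e' he' x hx hx' e'' he'' hx'', B.mul e he e' he' x hx hx' e'' he'' hx'']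
    ring

theorem pr_cmul (A B : M.Co) : Pr (cmul A B) A B := fun _ _ _ => rfl

theorem sec_pw (h : M.SecC A f) (p : ℕ) : M.SecC (A.pw p) (f ^ p) :=
  ⟨fun e he z hz => (h.sm e he z hz).pow p, fun e he e' he' x hx hx' => by
    simp only [Co.pw, Pi.pow_apply, h.cmp e he e' he' x hx hx', mul_pow]⟩

/-- Local integrability of a product of negative powers. -/
def Lct2 (f g : M.Fam ℂ) (s t : ℝ) : Prop := ∀ x, ∃ e ∈ M.C, x ∈ e.source ∧
  ∃ W ∈ 𝓝 (e x), ∫⁻ z in W, ‖f e z‖ₑ ^ (-2 * s) * ‖g e z‖ₑ ^ (-2 * t) < ⊤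

theorem Lct2.lct {c : ℝ} {p q : ℕ} (h : Lct2 f g (p * c) (q * c)) : M.Lct (f ^ p * g ^ q) c := by
  have e : ∀ (a : ℂ) (r : ℕ), ‖a ^ r‖ₑ ^ (-2 * c) = ‖a‖ₑ ^ (-2 * (r * c)) := fun a r => by
    rw [enorm_pow, ← ENNReal.rpow_natCast, ← ENNReal.rpow_mul, mul_left_comm]
  intro x
  simpa only [Pi.mul_apply, Pi.pow_apply, enorm_mul,
    ENNReal.mul_rpow_of_ne_top enorm_ne_top enorm_ne_top, e] using h x

theorem norm_wt [M.Cpt] (hn : 0 < n) (kH : M.Kae H) (L : M.Co) :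
    ∃ φ a, M.WtC L φ ∧ ∀ x, M.tr H (M.hw φ) x = a := by
  obtain ⟨φ₀, w0⟩ := aWT n M L
  obtain ⟨w, a, sw, hw⟩ := aPOI n M H (M.tr H (M.hw φ₀)) hn kH
    ((mINV n M H kH.toMet).1 _ w0.clo.toTen).2.1
  obtain ⟨wφ, eφ⟩ := w0.addF sw
  refine ⟨_, a, wφ, fun x => ?_⟩
  rw [tr_congr (G' := H) (T' := M.hw φ₀ + M.hs w) (fun _ _ _ _ => rfl) eφ, tr_add]
  have := hw x
  rw [Mf.lap] at this
  linarith

theorem eta [M.Cpt] (hK : M.Kb0 H P k Q) (D : M.Dw L f φ) {a : ℝ}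
    (h : ∀ x, M.tr H (M.hw φ) x = a) : M.HolSA H (M.qF H P (M.hw φ)) ∧
      M.All fun e z => (H e z * M.qF H P (M.hw φ) e z).PosSemidef :=
  let ⟨c', p1⟩ := aPAR1 n M H P k L φ a hK.kH hK.flat hK.atl D.wt h
  aETA1 n M H P k L f φ hK.kH hK.flat hK.atl D (aPAR2 n M H P k L φ c' hK.kH hK.flat hK.atl D.wt p1)

theorem ip_nn {H P R T : Mat n} (hH : H.PosDef) (hP : (H * P).IsHermitian)
    (hR : (H * R).IsHermitian) (h1 : R * R = R) (h2 : P * R = R)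
    (h : (H * (P * H⁻¹ * T * P)).PosSemidef) : 0 ≤ (H⁻¹ * (H * R) * H⁻¹ * T).trace.re := by
  have u := (pd_det_ne hH).isUnit
  have h3 := trace_inv_mul_nonneg hH (h.conjTranspose_mul_mul_same R)
  have h4 : R * P = R := T18.comm hH hP hR h2
  rw [← Matrix.mul_assoc Rᴴ, T18.adj hH hR, Matrix.mul_assoc H, Matrix.mul_assoc H,
    Matrix.nonsing_inv_mul_cancel_left _ _ u, Matrix.trace_mul_comm] at h3
  simp only [← Matrix.mul_assoc, h1, h4] at h3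
  rwa [Matrix.trace_mul_comm, ← Matrix.mul_assoc, ← Matrix.mul_assoc, h2,
    ← Matrix.nonsing_inv_mul_cancel_left H R u] at h3

theorem geo [M.Cpt] {H₀ h : M.Fam (Mat n)} {j : ℕ} {c : ℝ} (k0 : M.Kae H₀) (m0 : M.Met h)
    (t0 : M.Trb h) (hf : M.HSecC A f) (hg : M.HSecC B g) (hk : 0 < k) (hc : j < c * k)
    (hl : ∀ s ∈ Ico (0 : ℝ) 1, ∀ t ∈ Ico 0 c, Lct2 f g s t)
    (hσ : Mod ((cmul (A.pw (k + 1)) (B.pw j)).tw (k + 1)) f σ) :
    Ext ((cmul (A.pw (k + 1)) (B.pw j)).tw (k + 1)) f σ := by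
  have kp : (1 : ℝ) ≤ k := Nat.one_le_cast.2 hk
  have c0 : 0 < c := (mul_pos_iff_of_pos_right (by linarith)).1 (j.cast_nonneg.trans_lt hc)
  have lf : ∀ s ∈ Ico (0 : ℝ) 1, M.Lct f s := fun s hs x => by
    simpa only [mul_zero, ENNReal.rpow_zero, mul_one] using hl s hs 0 ⟨le_rfl, c0⟩ x
  have lg : M.Lct g (c / 2) := fun x => by
    simpa only [mul_zero, ENNReal.rpow_zero, one_mul] using
      hl 0 ⟨le_rfl, one_pos⟩ (c / 2) ⟨by positivity, half_lt_self c0⟩ x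
  rcases Nat.eq_zero_or_pos n with rfl | hn
  · obtain ⟨φ, w⟩ := aWT 0 M A
    have D : M.Dw A f φ := ⟨hf, w, (aKLI 0 M H₀ A f φ (1 / 2) k0.toMet hf w one_half_pos
      (lf _ ⟨one_half_pos.le, one_half_lt_one⟩)).1⟩
    refine ⟨0, fun e z => -σ e z / f e z, ⟨secC_zero, fun _ _ _ _ => differentiableAt_const _⟩,
      fun e he z hz => ⟨(hasFDerivAt_of_subsingleton _ _).differentiableAt, ?_⟩⟩
    have : f e z ≠ 0 := fun h0 => zero_ne_one (canc1 D he hz (α := fun _ => 0) (β := fun _ => 1)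
      continuousAt_const continuousAt_const (Eventually.of_forall fun w => by
        rw [Subsingleton.elim w z, h0, zero_mul, zero_mul]))
    rw [mul_div_cancel₀ _ this, add_neg_cancel]
    rfl
  obtain ⟨hy, H, P, r, Q, hK⟩ := aTAIL n M H₀ h hn k0 m0 t0
  have kH := hK.kH
  have hm := kH.toMet
  have np : (0 : ℝ) < n := Nat.cast_pos.2 hn
  obtain ⟨φ, a1, wφ, tφ⟩ := norm_wt hn kH A
  obtain ⟨ψ, a2, wψ, tψ⟩ := norm_wt hn kH B
  obtain ⟨N, hN⟩ : ∃ N : ℕ, (N : ℝ) = 4 * n + 1 := ⟨4 * n + 1, by push_cast; rfl⟩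
  have N1 : (1 : ℝ) < N := by linarith
  obtain ⟨p, hp⟩ : ∃ p : ℕ, (p : ℝ) = N * k - 1 := ⟨N * k - 1, by
    rw [Nat.cast_sub (by exact_mod_cast (by nlinarith : (1 : ℝ) ≤ N * k))]; push_cast; rfl⟩
  have p0 : (0 : ℝ) < p := by nlinarith
  have s0 : (0 : ℝ) < 1 / (N * k) := by positivity
  obtain ⟨c', c1, c2, c3⟩ : ∃ c' : ℝ, 1 / (N * k) < c' ∧ p * c' < 1 ∧ (N * j : ℕ) * c' < c := by
    have h1 : ∀ a b : ℝ, a * (1 / (N * k)) < b → ∀ᶠ x in 𝓝[>] (1 / (N * k) : ℝ), a * x < b :=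
      fun a b h => ((continuous_const_mul a).continuousAt.eventually (gt_mem_nhds h)).filter_mono
        nhdsWithin_le_nhds
    refine (eventually_mem_nhdsWithin.and ((h1 _ _ ?_).and (h1 _ _ ?_))).exists
    · rw [mul_one_div, div_lt_one (by positivity)]
      linarith
    · rw [mul_one_div, div_lt_iff₀ (by positivity)]
      push_cast
      nlinarith
  have c4 : 0 < c' := s0.trans c1
  obtain ⟨d1, C, hC⟩ := aKLI n M H A f φ (4 * n * (1 / N)) hm hf wφ (by positivity)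
    (lf _ ⟨by positivity, by rw [mul_one_div, div_lt_one (by positivity)]; linarith⟩)
  have DA : M.Dw A f φ := ⟨hf, wφ, d1⟩
  have DB : M.Dw B g ψ := ⟨hg, wψ, (aKLI n M H B g ψ _ hm hg wψ (half_pos c0) lg).1⟩
  have hw2 : ∀ a b : ℕ, M.WtC (cmul (A.pw a) (B.pw b)) ((a : ℝ) • φ + (b : ℝ) • ψ) ∧
      M.All fun e z => M.hw ((a : ℝ) • φ + (b : ℝ) • ψ) e z =
        ((a : ℝ) • M.hw φ + (b : ℝ) • M.hw ψ) e z := fun a b =>
    ⟨(pr_cmul _ _).wt (wφ.pw a).1 (wψ.pw b).1, fun e he z hz => by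
      beta_reduce
      rw [hw_add ((wφ.pw a).1.sm e he z hz) ((wψ.pw b).1.sm e he z hz), (wφ.pw a).2 e he z hz,
        (wψ.pw b).2 e he z hz]
      rfl⟩
  obtain ⟨w1, e1⟩ := hw2 p (N * j)
  have hs : M.HSecC _ (f ^ p * g ^ (N * j)) :=
    ⟨(pr_cmul _ _).sec (sec_pw hf.toSecC p) (sec_pw hg.toSecC (N * j)), fun e he z hz =>
      ((hf.hol e he z hz).pow p).mul ((hg.hol e he z hz).pow _)⟩
  obtain ⟨den, hint⟩ := aKLI n M H _ _ _ c' hm hs w1 c4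
    (hl _ ⟨by positivity, c2⟩ _ ⟨by positivity, c3⟩).lct
  have D : M.Dw _ _ _ := ⟨hs, w1, den⟩
  have cθ := w1.clo
  obtain ⟨e2, e3⟩ := eta hK D (a := p * a1 + (N * j : ℕ) * a2) fun x => by
    rw [tr_congr (G' := H) (fun _ _ _ _ => rfl) e1, tr_add, tr_smul, tr_smul, tφ, tψ]
  obtain ⟨P', k', a', sp⟩ := aETA2 n M H P _ r kH hK.flat cθ.toForm e2 e3
  have nn : ∀ {L : M.Co} {f : M.Fam ℂ} {φ : M.Fam ℝ} {a : ℝ}, M.Dw L f φ →
      (∀ x, M.tr H (M.hw φ) x = a) → ∀ x, 0 ≤ M.ip H (H * P') (M.hw φ) x := fun D h x =>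
    ip_nn (hm.ev_pos x) (hK.flat.herm.ch x) (sp.flat.herm.ch x) (sp.flat.idem.ch x)
      (sp.sub.ch x).1 ((eta hK D h).2.ch x)
  obtain ⟨f1, f2⟩ := aDSF n M H P' k' A f φ kH sp.flat DA fun x => by
    have h1 := sp.tr0 x
    rw [ip_congr (G' := H) (S' := H * P') (fun _ _ _ _ => rfl) (fun _ _ _ _ => rfl) e1, ip_add,
      ip_smul, ip_smul] at h1
    exact le_antisymm (nonpos_of_mul_nonpos_right (by
      linarith [mul_nonneg (N * j).cast_nonneg (nn DB tψ x)]) p0) (nn DA tφ x)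
  obtain ⟨d1, -⟩ := aDSF n M H P' k' _ _ _ kH sp.flat D sp.tr0
  obtain ⟨s₀, s1, hκ⟩ := aKAP n M H P _ P' r k' a' hm hK.flat cθ.toForm sp d1
  obtain ⟨V, -⟩ := (mCOV n M).2.2.1
  obtain ⟨ψ', χ, C', b, ap⟩ := aPSI n M H V _ _ _ ((1 / (N * k) + c') / 2) c' hm hs w1
    (by positivity) (by linarith) hint
  obtain ⟨v1, sv1, k1⟩ := aKCL n M H P' _ k' (min s₀ (1 / (N * k) / 2)) (1 / (N * k))
    ((1 / (N * k) + c') / 2) kH
    sp.flat cθ ((min_le_right _ _).trans_lt (half_lt_self s0)) (by linarith)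
    (fun e he z hz => by
      have := hκ (min s₀ (1 / (N * k) / 2)) ⟨lt_min s1 (half_pos s0), min_le_left _ _⟩ e he z hz
      beta_reduce at this ⊢
      rwa [hK.ke e he z hz, show H e z * P' e z - (H e z * P e z - H e z) =
        H e z - H e z * P e z + H e z * P' e z by abel])
    (aNEF n M H h _ V ψ' χ C' b hn kH m0 hy (cθ.smul _) ap)
  obtain ⟨v, sv, dg⟩ := aUTP n M H P' _ k' v1 hn kH sp.flat (HS.asPROD n M H P' k' kH sp.flat)
    (cθ.smul _) (fun e he z hz => by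
      simp only [Pi.smul_apply]
      rw [Matrix.smul_mul, d1 e he z hz, smul_zero]) (fun e he z hz => by
      beta_reduce
      rw [hK.ke e he z hz, sub_mul, mul_assoc, (sp.sub e he z hz).1, sub_self]) sv1 k1
  obtain ⟨w2, e4⟩ := hw2 k j
  obtain ⟨w3, e5⟩ := w2.tw hm (k + 1)
  obtain ⟨w4, e6⟩ := w3.addF (sv.const_mul (k : ℝ))
  refine core hn kH (fun e e' x => ?_) DA w4 (δ := 1 / N) (by positivity)
    ((div_le_one (by positivity)).2 N1.le) ((aBLK n M H P' _ dg).2.2 (fun e z => _) k kp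
      fun _ _ _ _ => rfl) (fun e he z hz => ?_) sp.flat.hol f1 f2 hC hσ
  · simp only [Co.tw, cmul, Co.pw]
    ring
  · beta_reduce
    rw [e6 e he z hz, e5 e he z hz, e4 e he z hz, ((mLAP n M v v sv sv).1 k e he z hz).2.2.2.1]
    have h1 := e1 e he z hz
    generalize M.hw ((p : ℝ) • φ + _) = θ at h1 ⊢
    simp only [Pi.add_apply, Pi.sub_apply, Pi.smul_apply, hp, h1]
    match_scalars <;> field_simp <;> ring

end Pool.Agent.Lib.DX
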