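import Pool.Agent.Lib.DX.SDefs
import Pool.Agent.Lib.DX.Geo

/-! From the statement to the manifold layer and back. -/

open scoped Classical Topology ContDiff ComplexOrder Matrix Manifold ENNReal
open Set Complex Filter MeasureTheory

noncomputable section

namespace Pool.Agent.Lib.DX

open Pool.Agent.Lib.SV (E jacAt)
open Pool.Agent.Lib.HS32 Pool.Agent.Lib.GH Pool.Agent.Lib.HS.BBR Pool.Agent.Lib.RB.R32
open Pool.Agent.Lib.KP Pool.Agent.Lib.KP.T6
open Pool.Agent.Lib.TB (TemperedNonpos)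

variable {n m : ℕ} {X ι : Type} [TopologicalSpace X] [ChartedSpace (E n) X]
  {e e' : OpenPartialHomeomorph X (E n)} {x : X} {v w : X → ℂ} {U : ι → Set X} {f : ι → X → ℂ}

theorem hol_mul (h : HolAt n 0 v x) (h' : HolAt n m w x) : HolAt n m (fun y => v y * w y) x := by
  simpa only [HolAt, mul_assoc] using (hol0 h).fun_mul h'

theorem hol_add (h : HolAt n m v x) (h' : HolAt n m w x) : HolAt n m (fun y => v y + w y) x := by
  simpa only [HolAt, add_mul] using h.fun_add h'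

theorem hol_sub (h : HolAt n m v x) (h' : HolAt n m w x) : HolAt n m (fun y => v y - w y) x := by
  simpa only [HolAt, sub_mul] using h.fun_sub h'

theorem hol_pow (h : HolAt n 0 v x) (k : ℕ) : HolAt n 0 (fun y => v y ^ k) x := by
  simpa only [HolAt, pow_zero, mul_one] using (hol0 h).fun_pow k

theorem Eqns.coc (h : Eqns n U f) (ho : ∀ i, IsOpen (U i))
    (fr : ∀ a, ∀ x ∈ U a, ∃ᶠ y in 𝓝 x, f a y ≠ 0) : ∃ u : ι → ι → X → ℂ,
    (∀ a b, ∀ x ∈ U a, x ∈ U b → HolAt n 0 (u a b) x ∧ u a b x ≠ 0 ∧ f a x = u a b x * f b x) ∧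
      ∀ a b d, ∀ x ∈ U a, x ∈ U b → x ∈ U d → u a d x = u a b x * u b d x := by
  choose u hu using h.unit
  refine ⟨u, fun a b x h1 h2 => hu a b x ⟨h1, h2⟩, fun a b d x ha hb hd => ?_⟩
  refine tendsto_nhds_unique_of_frequently_eq (l := 𝓝 x) (hol_cont (hu a d x ⟨ha, hd⟩).1)
    ((hol_cont (hu a b x ⟨ha, hb⟩).1).mul (hol_cont (hu b d x ⟨hb, hd⟩).1)) ?_
  refine ((fr d x hd).and_eventually ((((ho a).inter (ho b)).inter
    (ho d)).mem_nhds ⟨⟨ha, hb⟩, hd⟩)).mono fun y hy => mul_right_cancel₀ hy.1 ?_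
  obtain ⟨-, ⟨ya, yb⟩, yd⟩ := hy
  rw [← (hu a d y ⟨ya, yd⟩).2.2, Pi.mul_apply, mul_assoc, ← (hu b d y ⟨yb, yd⟩).2.2,
    ← (hu a b y ⟨ya, yb⟩).2.2]

omit [ChartedSpace (E n) X] in
theorem ev_tr (hx : x ∈ e.source) (hx' : x ∈ e'.source) :
    ∀ᶠ z in 𝓝 (e' x), z ∈ e'.target ∧ e'.symm z ∈ e.source :=
  (e'.open_target.eventually_mem (e'.map_source hx')).and
    ((e'.tendsto_symm hx').eventually (e.open_source.mem_nhds hx))

/-- The Jacobian determinant of the change to the preferred chart. -/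
def jd (e : OpenPartialHomeomorph X (E n)) (y : X) : ℂ := (jm (chartAt (E n) y ∘ e.symm) (e y)).det

variable [IsManifold 𝓘(ℂ, E n) ω X]

theorem ch_mf (x : X) : chartAt (E n) x ∈ (mf n X).C := fun y => ⟨cp_chart x y, cp_chart y x⟩

theorem jd_ne (he : e ∈ (mf n X).C) (hx : x ∈ e.source) : jd e x ≠ 0 :=
  ((mTR n (mf n X)).2.1 _ (ch_mf x) e he x (mem_chart_source _ x) hx).2.1

theorem jd_mul (he : e ∈ (mf n X).C) (he' : e' ∈ (mf n X).C) (hx : x ∈ e.source)
    (hx' : x ∈ e'.source) : jd e' x = jd e x * (jm (e ∘ e'.symm) (e' x)).det :=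
  (congrArg Matrix.det (((mTR n (mf n X)).2.1 _ (ch_mf x) e he x (mem_chart_source _ x)
    hx).2.2.2.2 e' he' hx')).trans (Matrix.det_mul _ _)

theorem jd_tr (he : e ∈ (mf n X).C) (he' : e' ∈ (mf n X).C) (hx : x ∈ e.source)
    (hx' : x ∈ e'.source)
    (h : DifferentiableAt ℂ (fun z => v (e.symm z) * jd e (e.symm z) ^ m) (e x)) :
    DifferentiableAt ℂ (fun z => v (e'.symm z) * jd e' (e'.symm z) ^ m) (e' x) := by
  have t1 : HolN (e ∘ e'.symm) (e' x) := ((mTR n (mf n X)).2.1 e he e' he' x hx hx').1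
  have p : (e ∘ e'.symm) (e' x) = e x := by simp only [Function.comp_apply, e'.left_inv hx']
  refine (((p ▸ h).comp _ t1.self_of_nhds).mul
    ((mCHN n _ _ t1).2.2.2.2.1.self_of_nhds.pow m)).congr_of_eventuallyEq
    ((ev_tr hx hx').mono fun z hz => ?_)
  simp only [Pi.mul_apply, Pi.pow_apply, Function.comp_apply, e.left_inv hz.2,
    jd_mul he he' hz.2 (e'.map_target hz.1), e'.right_inv hz.1]
  ring

theorem hol_iff (he : e ∈ (mf n X).C) (hx : x ∈ e.source) : HolAt n m v x ↔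
    DifferentiableAt ℂ (fun z => v (e.symm z) * jd e (e.symm z) ^ m) (e x) := by
  have h0 := mem_chart_source (E n) x
  refine Iff.trans (EventuallyEq.differentiableAt_iff ?_)
    ⟨jd_tr (ch_mf x) he h0 hx, jd_tr he (ch_mf x) hx h0⟩
  filter_upwards [(chartAt (E n) x).open_target.mem_nhds ((chartAt (E n) x).map_source h0)] with z hz
  have h1 : HolN (chartAt (E n) ((chartAt (E n) x).symm z) ∘ (chartAt (E n) x).symm)
      (chartAt (E n) x ((chartAt (E n) x).symm z)) :=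
    ((mTR n (mf n X)).2.1 _ (ch_mf _) _ (ch_mf x) _
      (mem_chart_source (M := X) _ _) ((chartAt (E n) x).map_target hz)).1
  rw [jd, ← (mCHN n _ _ h1).2.2.2.2.2.2.1, (chartAt (E n) x).right_inv hz]
  rfl

theorem hol_canc (h : HolAt n m v x) (h0 : ∃ᶠ y in 𝓝 x, v y = 0) : v x = 0 := by
  have hx := mem_chart_source (E n) x
  have h1 := ((hol_iff (ch_mf x) hx).1 h).continuousAt.tendsto.comp
    ((chartAt (E n) x).continuousAt hx)
  have h2 := tendsto_nhds_unique_of_frequently_eq h1 tendsto_const_nhds (b := 0)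
    ((h0.and_eventually ((chartAt (E n) x).open_source.mem_nhds hx)).mono fun y hy => by
      simp only [Function.comp_apply, (chartAt (E n) x).left_inv hy.2, hy.1, zero_mul])
  rw [(chartAt (E n) x).left_inv hx] at h2
  exact (mul_eq_zero.1 h2).resolve_right (pow_ne_zero _ (jd_ne (ch_mf x) hx))

theorem exists_co (ho : ∀ i, IsOpen (U i)) (hc : ∀ x, ∃ i, x ∈ U i) (h : Eqns n U f)
    {u : ι → ι → X → ℂ} (hu : ∀ a b, ∀ x ∈ U a, x ∈ U b →
      HolAt n 0 (u a b) x ∧ u a b x ≠ 0 ∧ f a x = u a b x * f b x)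
    (coc : ∀ a b d, ∀ x ∈ U a, x ∈ U b → x ∈ U d → u a d x = u a b x * u b d x)
    {i : OpenPartialHomeomorph X (E n) → ι}
    (hi : ∀ e ∈ (rs (mf n X) (U := U) ho hc).C, e.source ⊆ U (i e)) :
    ∃ A : (rs (mf n X) (U := U) ho hc).Co, (∀ e e' x, A.c e e' x = u (i e') (i e) x) ∧
      (rs (mf n X) (U := U) ho hc).HSecC A fun e z => f (i e) (e.symm z) := by
  have f1 : (rs (mf n X) (U := U) ho hc).All fun e z =>
      DifferentiableAt ℂ (fun w => f (i e) (e.symm w)) z :=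
    fun e he z hz => hol_chart (fun y => (he.1 y).2) hz (h.hol _ _ (hi e he (e.map_target hz)))
  refine ⟨⟨fun e e' x => u (i e') (i e) x, fun e he e' he' x hx hx' => ?_,
    fun e he e' he' x hx hx' => (hu _ _ _ (hi e' he' hx') (hi e he hx)).2.1,
    fun e he e' he' x hx hx' e'' he'' hx'' =>
      (coc _ _ _ x (hi e'' he'' hx'') (hi e' he' hx') (hi e he hx)).trans (mul_comm _ _)⟩,
    fun _ _ _ => rfl, ⟨fun e he z hz => ((mHOL n _ _).2.2 (f1.ev he hz)).1,
      fun e he e' he' x hx hx' => ?_⟩, f1⟩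
  · filter_upwards [((mTR n _).2.1 e he e' he' x hx hx').2.2.2.1] with w hw
    exact hol_chart (fun y => (he'.1 y).2) hw.1 (hu _ _ _ (hi e' he' hw.2.2.1) (hi e he hw.2.1)).1
  · beta_reduce
    rw [e.left_inv hx, e'.left_inv hx', mul_comm]
    exact (hu _ _ x (hi e' he' hx') (hi e he hx)).2.2

theorem main (n : ℕ) (X ι : Type) [TopologicalSpace X] [ChartedSpace (E n) X]
    [IsManifold 𝓘(ℂ, E n) ω X] [CompactSpace X] [T2Space X] [ConnectedSpace X] (g h : X → Mat n)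
    (m : ℕ) (c : ℝ) (U : ι → Set X) (f d σ : ι → X → ℂ) (hg : Kaehler g) (hh : Hermitian h)
    (hr : TemperedNonpos h) (hm : 2 ≤ m) (hc : 1 < c * (m - 1)) (hK : Lc n c U f d)
    (hσ : SecOn n m U (f ^ m * d) f σ) :
    ∃ s, PairSec n m 1 U (f ^ m * d) s ∧ ∀ i, ∀ x ∈ U i, InId n m (f i) (s i - σ i) x := by
  obtain ⟨k, rfl⟩ : ∃ k, m = k + 1 := ⟨m - 1, by omega⟩
  rw [Nat.cast_succ, add_sub_cancel_right] at hc
  have c0 : 0 < c := pos_of_mul_pos_left (one_pos.trans hc) k.cast_nonneg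
  let M : Mf n := rs (mf n X) (U := U) hK.opn hK.cov
  obtain ⟨r, r1, r2, r3, r4⟩ : ∃ r : X → OpenPartialHomeomorph X (E n), (∀ x, r x ∈ M.C) ∧
      (∀ x, x ∈ (r x).source) ∧ (∀ x, (r x : X → E n) = chartAt (E n) x) ∧
      ∀ x, ((r x).symm : E n → X) = (chartAt (E n) x).symm := by
    choose r r1 r2 r3 r4 using fun x : X =>
      restr (mf n X) (U := U) hK.opn hK.cov (ch_mf x) (mem_chart_source (E n) x)
    exact ⟨r, r1, r2, r3, r4⟩
  have hι : ∀ e : OpenPartialHomeomorph X (E n), ∃ i, e ∈ M.C → e.source ⊆ U i := fun e => by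
    by_cases he : e ∈ M.C
    · exact he.2.imp fun _ hi _ => hi
    · obtain ⟨x⟩ : Nonempty X := inferInstance
      exact (hK.cov x).imp fun _ _ h => absurd h he
  choose i hi using hι
  have ri : ∀ y, y ∈ U (i (r y)) := fun y => hi _ (r1 y) (r2 y)
  have fr : ∀ a, ∀ x ∈ U a, ∃ᶠ y in 𝓝 x, f a y ≠ 0 ∧ d a y ≠ 0 := fun a x hx => by
    have t0 : 0 < min (1 / 2) (c / 2) := lt_min one_half_pos (half_pos c0)
    obtain ⟨W, h1, h2⟩ := hK.lct _ _ t0.le ((min_le_left _ _).trans_lt one_half_lt_one) t0.le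
      ((min_le_right _ _).trans_lt (half_lt_self c0)) a x hx
    refine (freq (v := fun y => f a y * d a y) t0 h1 ?_).mono fun y => mul_ne_zero_iff.1
    simpa only [enorm_mul, ENNReal.mul_rpow_of_ne_top enorm_ne_top enorm_ne_top] using h2
  obtain ⟨u, hu, cu⟩ := hK.eqf.coc hK.opn fun a x hx => (fr a x hx).mono fun _ h => h.1
  obtain ⟨v, hv, cv⟩ := hK.eqd.coc hK.opn fun a x hx => (fr a x hx).mono fun _ h => h.2
  obtain ⟨A, a1, a2⟩ := exists_co hK.opn hK.cov hK.eqf hu cu hi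
  obtain ⟨B, b1, b2⟩ := exists_co hK.opn hK.cov hK.eqd hv cv hi
  have hq : ∀ a b, ∀ x ∈ U a, x ∈ U b → HolAt n 0 (fun y => u a b y ^ (k + 1) * v a b y) x :=
    fun a b x h1 h2 => hol_mul (hol_pow (hu a b x h1 h2).1 _) (hv a b x h1 h2).1
  have gl : ∀ a b, ∀ x ∈ U a, x ∈ U b → ∃ η : X → ℂ, ∀ᶠ y in 𝓝 x, HolAt n (k + 1) η y ∧
      σ a y = u a b y ^ (k + 1) * v a b y * σ b y + f a y * η y := fun a b x h1 h2 => by
    obtain ⟨η, h3⟩ := hσ.glue a b x ⟨h1, h2⟩
    refine ⟨η, ?_⟩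
    have h4 := ((hK.opn a).inter (hK.opn b)).eventually_mem ⟨h1, h2⟩
    filter_upwards [h4, (h3.and h4).eventually_nhds] with y h5 h6
    refine ⟨h6.self_of_nhds.1.1, sub_eq_zero.1 ((hol_canc (hol_sub (hσ.hol a y h5.1) (hol_add
      (hol_mul (hq a b y h5.1 h5.2) (hσ.hol b y h5.2)) (hol_mul (hK.eqf.hol a y h5.1)
        h6.self_of_nhds.1.1))) (((fr b y h5.2).and_eventually h6).mono fun z hz => ?_) :))⟩
    have h7 := hz.2.1.2
    simp only [Pi.sub_apply, Pi.mul_apply, Pi.pow_apply] at h7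
    refine mul_left_cancel₀ (mul_ne_zero (pow_ne_zero (k + 1) hz.1.1) hz.1.2) ?_
    rw [(hv a b z hz.2.2.1 hz.2.2.2).2.2] at h7
    nth_rw 1 [(hu a b z hz.2.2.1 hz.2.2.2).2.2] at h7
    linear_combination h7
  obtain ⟨g1, g2, -⟩ := fam_ok hg.toHermitian
  have met : ∀ T, (mf n X).Met T → M.Met T := fun T k =>
    ⟨⟨⟨fun e he => k.sm e he.1, fun e he e' he' => k.cmp e he.1 e' he'.1⟩,
      fun e he => k.herm e he.1⟩, fun e he => k.pos e he.1⟩
  have : M.Cpt := ⟨‹_›, ‹_›, ‹_›⟩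
  obtain ⟨s, α, s1, s2⟩ : ∃ s α : OpenPartialHomeomorph X (E n) → E n → ℂ,
      (∀ e e' : OpenPartialHomeomorph X (E n), e ∈ M.C → e' ∈ M.C → ∀ y ∈ e.source, y ∈ e'.source →
        s e' (e' y) = s e (e y) * ((jm (e ∘ e'.symm) (e' y)).det ^ (k + 1) *
          (u (i e') (i e) y ^ (k + 1) * v (i e') (i e) y ^ 1))) ∧
      ∀ e : OpenPartialHomeomorph X (E n), e ∈ M.C → ∀ z ∈ e.target, DifferentiableAt ℂ (s e) z ∧
        DifferentiableAt ℂ (α e) z ∧ s e z = σ (i e) (e.symm z) * jd e (e.symm z) ^ (k + 1) +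
          f (i e) (e.symm z) * α e z := by
    obtain ⟨s, α, s1, s2⟩ := geo (M := M) (j := 1) (k := k) (c := c)
      (σ := fun (e : OpenPartialHomeomorph X (E n)) z =>
        σ (i e) (e.symm z) * jd e (e.symm z) ^ (k + 1))
      ⟨⟨(met _ g1).toForm, fun e he => g2 hg e he.1⟩, (met _ g1).pos⟩ (met _ (fam_ok hh).1)
      (fun e he => TB.T12.fam_trb hh hr e he.1) a2 b2 (by omega) (by rwa [Nat.cast_one])
      (fun s hs t ht (x : X) => ⟨r x, r1 x, r2 x, by
        have := hK.lct s t hs.1 hs.2 ht.1 ht.2 _ x (ri x)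
        rw [← r3, ← r4] at this
        exact this⟩)
      ⟨fun (e : OpenPartialHomeomorph X (E n)) he z hz => by
        have := (hol_iff he.1 (e.map_target hz)).1 (hσ.hol _ _ (hi e he (e.map_target hz)))
        rwa [e.right_inv hz] at this, fun (e : OpenPartialHomeomorph X (E n)) he
          (e' : OpenPartialHomeomorph X (E n)) he' (x : X) hx hx' => by
        obtain ⟨η, h1⟩ := gl _ _ x (hi e' he' hx') (hi e he hx)
        have h2 := ((e'.tendsto_symm hx').eventually h1).and (ev_tr (X := X) hx hx')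
        refine ⟨fun z => η (e'.symm z) * jd e' (e'.symm z) ^ (k + 1), h2.mono fun z h => ?_,
          h2.mono fun z h => ?_⟩
        · have := (hol_iff he'.1 (e'.map_target h.2.1)).1 h.1.1
          rwa [e'.right_inv h.2.1] at this
        · simp only [Mf.Co.tw, cmul, Mf.Co.pw, a1, b1]
          change _ = σ (i e) (e.symm (e (e'.symm z))) * jd e (e.symm (e (e'.symm z))) ^ (k + 1) *
            ((jm (e ∘ e'.symm) (e' (e'.symm z))).det ^ (k + 1) * (u (i e') (i e) (e'.symm z) ^ (k + 1)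
              * v (i e') (i e) (e'.symm z) ^ 1)) + f (i e') (e'.symm z) * _
          rw [e.left_inv h.2.2, h.1.2, jd_mul he.1 he'.1 h.2.2 (e'.map_target h.2.1)]
          ring⟩
    refine ⟨s, α, fun e e' he he' y h1 h2 => ?_, fun e he z hz => ⟨s1.hol e he z hz, s2 e he z hz⟩⟩
    have := s1.cmp e he e' he' y h1 h2
    simp only [Mf.Co.tw, cmul, Mf.Co.pw, a1, b1] at this
    exact this
  have key : ∀ a (e : OpenPartialHomeomorph X (E n)), e ∈ M.C → ∀ y ∈ e.source, y ∈ U a →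
      u a (i (r y)) y ^ (k + 1) * v a (i (r y)) y * s (r y) (r y y) * jd e y ^ (k + 1) =
        u a (i e) y ^ (k + 1) * v a (i e) y * s e (e y) := fun a e he y h1 h2 => by
    rw [s1 _ e (r1 y) he y (r2 y) h1, cu _ _ _ y h2 (hi e he h1) (ri y), cv _ _ _ y h2 (hi e he h1) (ri y), jd, ← r3]
    ring
  refine ⟨fun a y => u a (i (r y)) y ^ (k + 1) * v a (i (r y)) y * s (r y) (r y y),
    ⟨fun a y hy => (hol_iff (r1 y).1 (r2 y)).2 ?_, fun a b y hy => ?_⟩, fun a x hx => ?_⟩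
  · have h1 := (r y).map_source (r2 y)
    refine ((hol_chart (v := fun z => u a (i (r y)) z ^ (k + 1) * v a (i (r y)) z)
      (fun z => ((r1 y).1 z).2) h1 (by
        rw [(r y).left_inv (r2 y)]
        exact hq _ _ y hy (ri y))).mul (s2 _ (r1 y) _ h1).1).congr_of_eventuallyEq ?_
    filter_upwards [(r y).open_target.mem_nhds h1,
      ((r y).tendsto_symm (r2 y)).eventually ((hK.opn a).mem_nhds hy)] with z h3 h4
    have := key a _ (r1 y) _ ((r y).map_target h3) h4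
    rwa [(r y).right_inv h3] at this
  · simp only [Pi.mul_apply, Pi.pow_apply, (hu a _ y hy.1 (ri y)).2.2, (hu b _ y hy.2 (ri y)).2.2,
      (hv a _ y hy.1 (ri y)).2.2, (hv b _ y hy.2 (ri y)).2.2]
    ring
  · obtain ⟨η, h1⟩ := gl _ _ x hx (ri x)
    refine ⟨fun y => u (i (r x)) a y * (u a (i (r x)) y ^ (k + 1) * v a (i (r x)) y *
      (α (r x) (r x y) / jd (r x) y ^ (k + 1))) - η y, ?_⟩
    filter_upwards [h1, (hK.opn a).mem_nhds hx, (r x).open_source.mem_nhds (r2 x)] with y h2 h3 h4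
    have h5 := hi _ (r1 x) h4
    have h6 := (r x).map_source h4
    obtain ⟨-, h7, h8⟩ := s2 _ (r1 x) _ h6
    refine ⟨hol_sub (hol_mul (hu _ _ y h5 h3).1 (hol_mul (hq _ _ y h3 h5)
      ((hol_iff (r1 x).1 h4).2 (h7.congr_of_eventuallyEq ?_)))) h2.1, ?_⟩
    · filter_upwards [(r x).open_target.mem_nhds h6] with z hz
      rw [div_mul_cancel₀ _ (pow_ne_zero _ (jd_ne (r1 x).1 ((r x).map_target hz))),
        (r x).right_inv hz]
    · have h9 := key a _ (r1 x) y h4 h3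
      have h0 := pow_ne_zero (k + 1) (jd_ne (r1 x).1 h4)
      rw [h8, ← eq_div_iff h0] at h9
      simp only [Pi.sub_apply, h9, h2.2, (r x).left_inv h4, (hu _ _ y h5 h3).2.2]
      field_simp
      ring

end Pool.Agent.Lib.DX
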