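import Pool.Agent.Lib.DX.Est

/-! Extension of sections from a divisor. -/

open scoped Classical Topology ContDiff ComplexOrder Matrix ENNReal NNReal
open Set MeasureTheory Complex Metric Filter

noncomputable section

namespace Pool.Agent.Lib.DX

open Pool.Agent.Lib.SV (E nsq)
open Pool.Agent.Lib.HS32 Pool.Agent.Lib.HS21 Pool.Agent.Lib.KP
open Pool.Agent.Lib.HS68 (dual)
open Pool.Agent.Lib.HS.SIUK (dzb_hol)

variable {n : ℕ} {M : Mf n} {H P T : M.Fam (Mat n)} {G A L : M.Co} {Ψ φ : M.Fam ℝ}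
  {a f σ u : M.Fam ℂ} {e : M.Ch} {z : E n}

/-- Holomorphic functions that glue modulo `f`. -/
structure Mod (L : M.Co) (f σ : M.Fam ℂ) : Prop where
  hol : M.All fun e z => DifferentiableAt ℂ (σ e) z
  cmp : M.Ov fun e e' x => ∃ η, HolN η (e' x) ∧ σ e' =ᶠ[𝓝 (e' x)]
    fun w => σ e (e (e'.symm w)) * L.c e e' (e'.symm w) + f e' w * η w

/-- A global holomorphic section that agrees with `σ` modulo `f`. -/
def Ext (L : M.Co) (f σ : M.Fam ℂ) : Prop := ∃ s a : M.Fam ℂ, M.HSecC L s ∧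
  M.All fun e z => DifferentiableAt ℂ (a e) z ∧ s e z = σ e z + f e z * a e z

/-- `L` is the product of `G` and `A`. -/
def Pr (L G A : M.Co) : Prop := ∀ e e' x, L.c e e' x = G.c e e' x * A.c e e' x

theorem Pr.wt (h : Pr L G A) (h1 : M.WtC G Ψ) (h2 : M.WtC A φ) : M.WtC L (Ψ + φ) :=
  ⟨fun e he z hz => (h1.sm e he z hz).add (h2.sm e he z hz), fun e he e' he' x hx hx' => by
    simp only [Pi.add_apply, h1.cmp e he e' he' x hx hx', h2.cmp e he e' he' x hx hx', h e e' x,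
      map_mul, Real.log_mul (normSq_pos.2 (G.ne e he e' he' x hx hx')).ne'
        (normSq_pos.2 (A.ne e he e' he' x hx hx')).ne']
    ring⟩

theorem Pr.sec (h : Pr L G A) (h1 : M.SecC G u) (h2 : M.SecC A f) : M.SecC L (u * f) :=
  ⟨fun e he z hz => (h1.sm e he z hz).mul (h2.sm e he z hz), fun e he e' he' x hx hx' => by
    simp only [Pi.mul_apply, h1.cmp e he e' he' x hx hx', h2.cmp e he e' he' x hx hx', h e e' x]
    ring⟩

theorem canc1 (D : M.Dw A f φ) (he : e ∈ M.C) (hz : z ∈ e.target) {α β : E n → ℂ}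
    (h1 : ContinuousAt α z) (h2 : ContinuousAt β z)
    (h : ∀ᶠ w in 𝓝 z, f e w * α w = f e w * β w) : α z = β z := by
  have fr : ∃ᶠ x in 𝓝 (e.symm z), M.nrC φ f x ≠ 0 := mem_closure_iff_frequently.1 (D.den _)
  rw [← e.symm.map_nhds_eq hz, frequently_map] at fr
  refine tendsto_nhds_unique_of_frequently_eq h1 h2 ((fr.and_eventually
    ((e.open_target.eventually_mem hz).and h)).mono fun w h => mul_left_cancel₀ ?_ h.2.2)
  have := (D.hol.toSecC.ne_iff he (e.map_target h.2.1)).1 (Mf.nrC_ne.1 h.1)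
  rwa [e.right_inv h.2.1] at this

theorem canc (D : M.Dw A f φ) (he : e ∈ M.C) (hz : z ∈ e.target) {α β : E n → ℂ}
    (h1 : ∀ᶠ w in 𝓝 z, ContinuousAt α w) (h2 : ∀ᶠ w in 𝓝 z, ContinuousAt β w)
    (h : ∀ᶠ w in 𝓝 z, f e w * α w = f e w * β w) : α =ᶠ[𝓝 z] β := by
  filter_upwards [e.open_target.eventually_mem hz, h1, h2, h.eventually_nhds] with w a b c d
  exact canc1 D he a b c d

theorem ev_cont {α : E n → ℂ} (h : ContDiffAt ℝ ∞ α z) : ∀ᶠ w in 𝓝 z, ContinuousAt α w :=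
  (cd_ev_diff h).mono fun _ hw => hw.continuousAt

theorem exists_aff [M.Cpt] (hL : Pr L G A) (D : M.Dw A f φ) (h : Mod L f σ) : ∃ s a : M.Fam ℂ,
    M.SecC L s ∧ Aff G a ∧ M.All fun e z => s e z = σ e z + f e z * a e z := by
  obtain ⟨V, -⟩ := (mCOV n M).2.2.1
  let s : M.Fam ℂ := fun e z => ∑ b, (V.χ b (e.symm z) : ℂ) ^ 2 *
    (σ (V.e b) (V.e b (e.symm z)) * L.c (V.e b) e (e.symm z))
  have sσ : M.All fun e z => ContDiffAt ℝ ∞ (σ e) z := fun e he z hz =>
    ((mHOL n _ z).2.2 (h.hol.ev he hz)).1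
  have h1 : ∀ e z, ∃ α : E n → ℂ, e ∈ M.C → z ∈ e.target → ContDiffAt ℝ ∞ α z ∧
      ∀ᶠ w in 𝓝 z, s e w = σ e w + f e w * α w := fun e z => by
    by_cases hz : e ∈ M.C ∧ z ∈ e.target
    swap
    · exact ⟨0, fun a b => absurd ⟨a, b⟩ hz⟩
    obtain ⟨he, hz⟩ := hz
    have h2 : ∀ b, ∃ η : E n → ℂ, ContDiffAt ℝ ∞ η z ∧ ∀ᶠ w in 𝓝 z, (V.χ b (e.symm w) : ℂ) ^ 2 *
        (σ (V.e b) (V.e b (e.symm w)) * L.c (V.e b) e (e.symm w)) =
          (V.χ b (e.symm w) : ℂ) ^ 2 * (σ e w - f e w * η w) := fun b => by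
      by_cases hb : e.symm z ∈ (V.e b).source
      · obtain ⟨η, h3, h4⟩ := h.cmp _ (V.mem b) e he _ hb (e.map_target hz)
        rw [e.right_inv hz] at h3 h4
        exact ⟨η, ((mHOL n _ z).2.2 h3).1, h4.mono fun w hw => by rw [hw, add_sub_cancel_right]⟩
      · exact ⟨0, contDiffAt_const, ((e.continuousAt_symm hz).eventually
          (T56.chi_zero V b hb)).mono fun w hw => by simp [hw]⟩
    choose η h3 h4 using h2
    refine ⟨fun w => -∑ b, (V.χ b (e.symm w) : ℂ) ^ 2 * η b w, fun _ _ => ⟨(ContDiffAt.sum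
      fun b _ => ((cd_ofReal (V.sm b e he z hz)).pow 2).mul (h3 b)).neg, ?_⟩⟩
    filter_upwards [eventually_all.2 h4] with w hw
    have h5 : ∑ b, (V.χ b (e.symm w) : ℂ) ^ 2 = 1 := by exact_mod_cast V.sum (e.symm w)
    simp only [s, hw, mul_sub, Finset.sum_sub_distrib, ← Finset.sum_mul, h5, mul_left_comm _ (f e w),
      ← Finset.mul_sum]
    ring
  choose α hα using h1
  have h2 : M.All fun e z => (fun w => α e w w) =ᶠ[𝓝 z] α e z := fun e he z hz => by
    filter_upwards [e.open_target.eventually_mem hz, ev_cont (hα e z he hz).1,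
      (hα e z he hz).2.eventually_nhds] with w a b c
    exact canc1 D he a (hα e w he a).1.continuousAt b (((hα e w he a).2.and c).mono fun y hy =>
      add_left_cancel (hy.1.symm.trans hy.2))
  have h3 : M.All fun e z => ContDiffAt ℝ ∞ (fun w => α e w w) z := fun e he z hz =>
    (hα e z he hz).1.congr_of_eventuallyEq (h2 e he z hz)
  have h4 : M.All fun e z => s e z = σ e z + f e z * α e z z := fun e he z hz =>
    (hα e z he hz).2.self_of_nhds
  have h5 : M.SecC L s := ⟨fun e he z hz => ((sσ e he z hz).add ((D.hol.sm e he z hz).mul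
    (h3 e he z hz))).congr_of_eventuallyEq (h4.ev he hz), fun e he e' he' x hx hx' => by
      simp only [s, e.left_inv hx, e'.left_inv hx', Finset.sum_mul]
      refine Finset.sum_congr rfl fun b _ => ?_
      by_cases h0 : V.χ b x = 0
      · simp [h0]
      · rw [L.mul _ (V.mem b) e he x (V.supp b x h0).1 hx e' he' hx']
        ring⟩
  refine ⟨s, fun e w => α e w w, h5, ⟨h3, fun e he e' he' x hx hx' => ?_⟩, h4⟩
  obtain ⟨η, k1, k2⟩ := h.cmp e he e' he' x hx hx'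
  obtain ⟨t1, -, -, t2, -⟩ := (mTR n M).2.1 e he e' he' x hx hx'
  have ex : (e ∘ e'.symm) (e' x) = e x := by simp [e'.left_inv hx']
  refine ⟨fun w => -η w, k1.mono fun w hw => hw.neg, canc D he' (e'.map_source hx')
    (ev_cont (h3.at he' hx')) (ev_cont ((((ex ▸ h3.at he hx).comp _ (mCHN n _ _ t1).1).mul
      (G.sm e he e' he' x hx hx')).add ((mHOL n _ _).2.2 k1).1.neg)) ?_⟩
  filter_upwards [k2, t2, h5.ev e he e' he' x hx hx', D.hol.ev e he e' he' x hx hx'] with w a b c d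
  have k3 := h4 e' he' w b.1
  have k4 := h4.at he b.2.1
  rw [hL] at a c
  linear_combination c - k3 - a + G.c e e' (e'.symm w) * A.c e e' (e'.symm w) * k4 -
    α e (e (e'.symm w)) (e (e'.symm w)) * G.c e e' (e'.symm w) * d

theorem box_mul {s : M.Fam ℂ} (h1 : HolN (σ e) z) (h2 : HolN (f e) z)
    (h3 : ContDiffAt ℝ ∞ (a e) z) (h4 : ContDiffAt ℝ ∞ (Ψ e) z) (h5 : ContDiffAt ℝ ∞ (φ e) z)
    (h : s e =ᶠ[𝓝 z] fun w => σ e w + f e w * a e w) : (boxC M H (Ψ + φ)).ap s e z =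
      f e z * (boxC M H Ψ).ap a e z + M.cv φ f e z ⬝ᵥ dual (H e) (a e) z := by
  obtain ⟨s1, -, s2, -⟩ := (mHOL n _ z).2.2 h1
  obtain ⟨f1, -, f2, -⟩ := (mHOL n _ z).2.2 h2
  have k : hess (s e) z - dd (s e) (fun w => ((Ψ + φ) e w : ℂ)) z =
      f e z • (hess (a e) z - dd (a e) (fun w => (Ψ e w : ℂ)) z) +
        Matrix.vecMulVec (fun i => dzb i (a e) z) (M.cv φ f e z) := by
    rw [hess_congr h, hess_add s1 (f1.mul h3), hess_mul f1 h3, s2, f2]
    ext i j
    simp only [Matrix.sub_apply, Matrix.add_apply, Matrix.smul_apply, dd_apply, dzb_congr h,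
      dzb_add (cd_diff s1) (cd_diff (f1.mul h3)), dzb_mul (cd_diff f1) (cd_diff h3),
      dzb_hol h1.self_of_nhds, dzb_hol h2.self_of_nhds, Pi.add_apply, ofReal_add,
      dz_add (cd_diff (cd_ofReal h4)) (cd_diff (cd_ofReal h5)), Matrix.vecMulVec_apply, Mf.cv,
      Matrix.zero_apply, smul_eq_mul]
    ring
  rw [T24.ap_eq, T24.ap_eq, k, Matrix.mul_add, Matrix.trace_add, Matrix.mul_smul,
    Matrix.trace_smul, smul_eq_mul, Matrix.mul_vecMulVec, Matrix.trace_vecMulVec, dotProduct_comm]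
  rfl

theorem rho_le {N τ δ D : ℝ} (hN : 0 ≤ N) (hτ : 0 < τ) (hδ : δ ≤ 1) (hD : 0 ≤ D) (k : ℕ) :
    (D * (τ / (N + τ)) * (N + τ) ^ (-δ)) ^ k ≤ D ^ k * τ ^ (k * δ) * (N + τ) ^ (-(2 * k * δ)) := by
  have h0 : 0 < N + τ := by positivity
  have h1 : (τ / (N + τ)) ^ k ≤ (τ / (N + τ)) ^ (k * δ) := by
    rw [← Real.rpow_natCast]
    exact Real.rpow_le_rpow_of_exponent_ge (by positivity) ((div_le_one h0).2 (by linarith))
      (mul_le_of_le_one_right k.cast_nonneg hδ)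
  rw [mul_pow, mul_pow, ← Real.rpow_mul_natCast h0.le]
  refine (mul_le_mul_of_nonneg_right (mul_le_mul_of_nonneg_left h1 (by positivity))
    (by positivity)).trans_eq ?_
  rw [Real.div_rpow hτ.le h0.le, div_eq_mul_inv, ← Real.rpow_neg h0.le, mul_assoc, mul_assoc,
    ← Real.rpow_add h0, ← mul_assoc]
  congr 2
  ring

theorem core [M.Cpt] (hn : 0 < n) (hH : M.Kae H) (hL : Pr L G A) (D : M.Dw A f φ)
    (hΨ : M.WtC G Ψ) {δ C : ℝ} (d0 : 0 < δ) (d1 : δ ≤ 1) (dg : M.Deg H P T)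
    (hT : M.All fun e z => M.hw Ψ e z + M.ric H e z = T e z + δ • M.hw φ e z)
    (hP : M.All fun e z => ∀ l, dMb l (P e) z = 0) (h1 : M.All fun e z => M.hw φ e z * P e z = 0)
    (h2 : M.All fun e z => ∀ l, ∑ j, dz j (M.lc (M.nrC φ f) e) z * P e z j l = 0)
    (hC : ∀ τ : ℝ, 0 < τ → ∫ x, (M.nrC φ f x + τ) ^ (-(4 * n * δ)) ∂M.mu H ≤ C)
    (hσ : Mod L f σ) : Ext L f σ := by
  have hm := hH.toMet
  have nh := aNHS n M A f φ D.hol D.wt
  have sN := D.wt.nr_sm D.hol.toSecC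
  have hi := (mMU n M H hm).2.2.2.2.1
  obtain ⟨K, K0, hK⟩ := (aBLK n M H P T dg).2.1 _ D.wt.clo.toForm.neg fun e he z hz => by
    simp only [Pi.neg_apply, neg_mul, h1 e he z hz, neg_zero]
  obtain ⟨B, -, hB⟩ := sN.exists_bound
  obtain ⟨ε, ε0, hε⟩ := absorb hn hH dg hP hΨ (δ * Real.log (B + 1))
  obtain ⟨τ, ⟨τ0, τ1⟩, hτ⟩ : ∃ τ ∈ Ioo (0 : ℝ) 1,
      (δ * K) ^ (2 * n) * τ ^ ((2 * n : ℕ) * δ) * C < ε := by
    have c0 : (0 : ℝ) < (2 * n : ℕ) * δ := by positivity
    have : ContinuousAt (fun τ : ℝ => (δ * K) ^ (2 * n) * τ ^ ((2 * n : ℕ) * δ) * C) 0 :=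
      (continuousAt_const.mul (Real.continuousAt_rpow_const _ _ (Or.inr c0.le))).mul
        continuousAt_const
    exact (Eventually.and (Ioo_mem_nhdsGT one_pos) ((this.eventually (gt_mem_nhds (by
      simpa only [Real.zero_rpow c0.ne', mul_zero, zero_mul] using ε0))).filter_mono nhdsWithin_le_nhds)).exists
  have hp : ∀ x, 0 < M.nrC φ f x + τ := fun x => add_pos_of_nonneg_of_pos (M.nrC_nonneg φ f x) τ0
  have sl := (mLAP n M _ _ sN sN).2.1 (fun s => Real.log (s + τ)) fun x =>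
    (contDiffAt_id.add contDiffAt_const).log (hp x).ne'
  have sψ := sl.1.const_mul δ
  obtain ⟨w1, -⟩ := hΨ.addF sψ
  obtain ⟨s0, a0, k1, k2, k3⟩ := exists_aff hL D hσ
  obtain ⟨u, u1, u2⟩ := solve hH w1 (k2.box hm w1) fun s hs => k2.green hH w1 hs
  have ha := k2.sub u1
  have h0 : M.All fun e z => (boxC M H (Ψ + fun e z =>
      δ * Real.log (M.nrC φ f (e.symm z) + τ))).ap (a0 - u) e z = 0 := fun e he z hz =>
    (LIN.lop_sub _ _ _ _ (k2.sm e he z hz) (u1.sm e he z hz)).trans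
      (sub_eq_zero.2 (u2 e he z hz).symm)
  have cN : Continuous fun x => M.nrC φ f x + τ := sN.continuous.add continuous_const
  have cr : ∀ c : ℝ, Continuous fun x => (M.nrC φ f x + τ) ^ c := fun c =>
    cN.rpow_const fun x => Or.inl (hp x).ne'
  have cρ : Continuous fun x => δ * K * (τ / (M.nrC φ f x + τ)) * (M.nrC φ f x + τ) ^ (-δ) :=
    (continuous_const.mul (continuous_const.div cN fun x => (hp x).ne')).mul (cr _)
  have hW := hε _ _ _ sψ (fun x => mul_le_mul_of_nonneg_left (Real.log_le_log (hp x)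
    (add_le_add ((le_abs_self _).trans (hB x)) τ1.le)) d0.le) cρ
    (fun x => by have := hp x; positivity) (by
      refine (integral_mono (hi _ _ (cρ.fun_pow _)) ((hi _ _ (cr _)).const_mul _) fun x =>
        rho_le (M.nrC_nonneg φ f x) τ0 d1 (by positivity) _).trans ?_
      rw [integral_const_mul, show (2 * (2 * n : ℕ) * δ : ℝ) = 4 * n * δ by push_cast; ring]
      exact (mul_le_mul_of_nonneg_left (hC τ τ0) (by positivity)).trans hτ.le)
    (fun e he z hz => by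
      obtain ⟨h3, h4, -⟩ := nh e he z hz
      have h5 := hp (e.symm z)
      rw [((mLAP n M _ _ sl.1 sl.1).1 δ e he z hz).2.2.2.1, add_right_comm, hT e he z hz,
        (sl.2 e he z hz).1, h3, h4, (T7.d1 h5).deriv, T7.d2 h5, mul_comm δ (Real.log _),
        ← Real.rpow_def_of_pos h5, mul_assoc, ← Real.rpow_add h5, neg_add_cancel, Real.rpow_zero]
      have h6 := ((hK e he z hz).smul (div_pos (mul_pos d0 τ0) h5).le).add
        ((Matrix.posSemidef_vecMulVec_star_self (M.cv φ f e z)).smul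
          (show 0 ≤ δ * τ * Real.exp (-φ e z) / (M.nrC φ f (e.symm z) + τ) ^ 2 by positivity))
      convert h6 using 1
      simp only [Pi.neg_apply, Pi.smul_apply]
      match_scalars <;> field_simp <;> ring) ha h0
  have cp : M.All fun e z => M.cv φ f e z ᵥ* P e z = 0 := fun e he z hz => funext fun l => by
    refine canc1 D he hz (α := fun w => (M.cv φ f e w ᵥ* P e w) l) (β := fun _ => 0)
      (tendsto_finsetSum Finset.univ fun j _ => ((((cd_dz (D.hol.sm e he z hz) j).sub ((D.hol.sm e he z hz).mul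
        (cd_dz (D.wt.smC e he z hz) j))).mul (dg.en.sm e he z hz j l)).continuousAt))
      continuousAt_const (((h2.and nh).ev he hz).mono fun w hw => ?_)
    have h3 := hw.1 l
    simp only [hw.2.2.2.1, mul_assoc, ← Finset.mul_sum, mul_eq_zero, ofReal_eq_zero,
      (Real.exp_pos _).ne', false_or, star_eq_zero] at h3
    rw [mul_zero]
    exact mul_eq_zero.2 h3
  have k4 : M.All fun e z => (s0 - u * f) e z = σ e z + f e z * (a0 - u) e z := fun e he z hz => by
    simp only [Pi.sub_apply, Pi.mul_apply, k3 e he z hz]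
    ring
  have hs := hol_of_box hH (hL.wt w1 D.wt) (k1.sub (hL.sec u1 D.hol.toSecC)) fun e he z hz => by
    beta_reduce
    rw [box_mul (hσ.hol.ev he hz) (D.hol.holN e he z hz) (ha.sm e he z hz) (w1.sm e he z hz)
      (D.wt.sm e he z hz) (k4.ev he hz), h0 e he z hz, ← hW e he z hz, Matrix.dotProduct_mulVec,
      cp e he z hz, zero_dotProduct, mul_zero, add_zero]
  refine ⟨_, _, hs, fun e he z hz => ⟨((mHOL n _ z).1 (cd_diff (ha.sm e he z hz))).2 fun j =>
    canc1 D he hz (β := fun _ => 0) (cd_dzb (ha.sm e he z hz) j).continuousAt continuousAt_const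
      ((e.open_target.eventually_mem hz).mono fun w hw => ?_), k4 e he z hz⟩⟩
  have h3 := dzb_hol (j := j) (hs.hol e he w hw)
  have h4 := D.hol.hol e he w hw
  have h5 := hσ.hol e he w hw
  rw [dzb_congr (k4.ev he hw), dzb_add (h5.restrictScalars ℝ) ((h4.restrictScalars ℝ).fun_mul
    (cd_diff (ha.sm e he w hw))), dzb_mul (h4.restrictScalars ℝ) (cd_diff (ha.sm e he w hw)),
    dzb_hol h4, dzb_hol h5, zero_mul, zero_add, zero_add] at h3
  rw [h3, mul_zero]

end Pool.Agent.Lib.DX
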