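import Pool.Agent.Lib.DX.Sol
import Pool.Agent.Lib.DX.Abs

/-! The absorbing estimate. -/

open scoped Classical Topology ContDiff ComplexOrder Matrix ENNReal NNReal
open Set MeasureTheory Complex Metric Filter

noncomputable section

namespace Pool.Agent.Lib.DX

open Pool.Agent.Lib.SV (E nsq)
open Pool.Agent.Lib.HS32 Pool.Agent.Lib.HS21 Pool.Agent.Lib.KP
open Pool.Agent.Lib.HS68 (dual met_loc clo_kl)
open Pool.Agent.Lib.KP.T96 (nq_add nq_sub nq_sm nq_cj)
open Pool.Agent.Lib.KP.T40 (nq_nonneg)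

variable {n : ℕ} {M : Mf n} {H P T : M.Fam (Mat n)} {G : M.Co} {Ψ : M.Fam ℝ} {a : M.Fam ℂ}

theorem nq_one (v : E n) : nq 1 v = nsq v := by
  simp only [nq, nsq, Matrix.one_mulVec, dotProduct, re_sum, Pi.star_apply, star_def,
    ← normSq_eq_conj_mul_self, ofReal_re]

theorem cs_sq (u v : E n) : normSq (∑ j, u j * v j) ≤ (∑ j, normSq (u j)) * ∑ j, normSq (v j) := by
  simp only [normSq_eq_norm_sq]
  refine le_trans ?_ (Finset.sum_mul_sq_le_sq_mul_sq _ _ _)
  exact pow_le_pow_left₀ (norm_nonneg _) ((norm_sum_le _ _).trans_eq (by simp only [norm_mul])) 2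

theorem deg_met (h : M.Deg H P T) : M.Met (T + H * P) :=
  ⟨h.form.add ⟨(mINV n M H h.met).2.2.2.2.2.1 P h.en, h.herm⟩, h.pos⟩

theorem deg_nq (h : M.Deg H P T) {e : M.Ch} (he : e ∈ M.C) {z : E n} (hz : z ∈ e.target)
    (v : E n) : nq (T e z) v = nq ((T + H * P) e z) ((1 - P e z) *ᵥ v) := by
  rw [nq_cj]
  exact congrArg (nq · v) (T68.cut2 (h.form.herm e he z hz) (h.kill e he z hz)
    (h.idem e he z hz)).symm

theorem loc_bd [M.Cpt] (hH : M.Kae H) (dg : M.Deg H P T)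
    (hP : M.All fun e z => ∀ l, dMb l (P e) z = 0) (hΨ : M.WtC G Ψ) (V : M.Cov) (b : Fin V.r) :
    ∃ K : ℝ, 0 < K ∧ ∀ z ∈ Kb V b, ∀ f : E n → ℂ, ContDiffAt ℝ ∞ f z →
      0 ≤ qq (dual (H (V.e b)) f) z ∧
      nq (T (V.e b) z) (dual (H (V.e b)) f z) * Real.exp (-Ψ (V.e b) z) ≤
        K * nsq ((1 - P (V.e b) z) *ᵥ dual (H (V.e b)) f z) ∧
      g2 (fun w => (1 - P (V.e b) w) *ᵥ dual (H (V.e b)) f w) z ≤
        K * ((nq (T (V.e b) z) (dual (H (V.e b)) f z) + qq (dual (H (V.e b)) f) z) *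
          Real.exp (-Ψ (V.e b) z)) := by
  have he := V.mem b
  have ht := Kb_sub V b
  have hc := Kb_cpt V b
  generalize V.e b = e at *
  obtain ⟨C1, c1, h1⟩ := (mBD n M H hH.toMet).2.2.1 e he _ hc ht
  obtain ⟨C2, c2, h2⟩ := (mBD n M _ (deg_met dg)).2.2.1 e he _ hc ht
  have sP : ∀ z ∈ Kb V b, SmM (fun w => 1 - P e w) z := fun z hz =>
    (smM_const 1).sub (dg.en.sm e he z (ht hz))
  obtain ⟨D, d0, h3⟩ := BBD.up hc (f := fun z => ∑ i, ∑ j, normSq ((1 - P e z) i j)) fun z hz =>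
    tendsto_finsetSum _ fun i _ => tendsto_finsetSum _ fun j _ =>
      continuous_normSq.continuousAt.comp (sP z hz i j).continuousAt
  obtain ⟨A, a0, h4⟩ := BBD.up hc (f := fun z => Real.exp (-Ψ e z) + Real.exp (Ψ e z)) fun z hz =>
    (hΨ.sm e he z (ht hz)).continuousAt.neg.rexp.add (hΨ.sm e he z (ht hz)).continuousAt.rexp
  refine ⟨(C2 + D * C1 ^ 2) * A, by positivity, fun z hz f hf => ?_⟩
  have K := met_loc hH.toMet he (ht hz)
  have sW := contDiffAt_pi.1 (K.smooth_dual hf)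
  have k1 := qq_lo K (clo_kl hH.toClo he (ht hz)) hf (by linarith) (h1 z hz).1 (h1 z hz).2.1
  have k2 := nq_nonneg (h2 z hz).1 ((1 - P e z) *ᵥ dual (H e) f z)
  have k3 := nq_nonneg (h2 z hz).2.1 ((1 - P e z) *ᵥ dual (H e) f z)
  rw [nq_sub, nq_sm, nq_one, ← deg_nq dg he (ht hz)] at k2 k3
  have k4 : ∑ i, ∑ l, normSq (dzb l (fun w => ((1 - P e w) *ᵥ dual (H e) f w) i) z) ≤
      (∑ i, ∑ j, normSq ((1 - P e z) i j)) *
        ∑ k, ∑ l, normSq (dzb l (fun x => dual (H e) f x k) z) := by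
    rw [Finset.sum_mul]
    refine Finset.sum_le_sum fun i _ => ?_
    rw [Finset.sum_comm, Finset.mul_sum]
    refine Finset.sum_le_sum fun l _ => le_trans (le_of_eq ?_) (cs_sq _ _)
    simp only [Matrix.mulVec, dotProduct]
    rw [dzb_sum fun j _ => ((sP z hz).diff i j).fun_mul (cd_diff (sW j))]
    refine congrArg _ (Finset.sum_congr rfl fun j _ => ?_)
    have := congrFun (congrFun (hP e he z (ht hz) l) i) j
    rw [dzb_mul ((sP z hz).diff i j) (cd_diff (sW j))]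
    simp only [Matrix.sub_apply]
    rw [dzb_sub (differentiableAt_const _) ((dg.en.sm e he z (ht hz)).diff i j), dzb_const,
      show dzb l (fun w => P e w i j) z = 0 from this]
    ring
  have k5 : 0 ≤ ∑ k, ∑ l, normSq (dzb l (fun x => dual (H e) f x k) z) :=
    Finset.sum_nonneg fun _ _ => Finset.sum_nonneg fun _ _ => normSq_nonneg _
  have k6 : 0 ≤ qq (dual (H e) f) z := nonneg_of_mul_nonneg_right (k5.trans k1) (by positivity)
  have k7 : 0 ≤ nsq ((1 - P e z) *ᵥ dual (H e) f z) := Finset.sum_nonneg fun _ _ => normSq_nonneg _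
  have k8 : 0 ≤ nq (T e z) (dual (H e) f z) :=
    nonneg_of_mul_nonneg_right (k7.trans (sub_nonneg.1 k2)) (by linarith)
  have e1 := Real.exp_pos (-Ψ e z)
  have e2 := Real.exp_pos (Ψ e z)
  have e3 : 1 ≤ A * Real.exp (-Ψ e z) := by
    rw [Real.exp_neg, ← div_eq_mul_inv, one_le_div e2]
    linarith [h4 z hz]
  refine ⟨k6, ?_, ?_⟩
  · calc _ ≤ C2 * nsq ((1 - P e z) *ᵥ dual (H e) f z) * A :=
          mul_le_mul (sub_nonneg.1 k3) (by linarith [h4 z hz]) e1.le (by positivity)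
      _ ≤ _ := by
          rw [mul_right_comm]
          gcongr
          exact le_add_of_nonneg_right (by positivity)
  · have k9 := (k4.trans (mul_le_mul_of_nonneg_right (h3 z hz) k5)).trans
      (mul_le_mul_of_nonneg_left k1 d0.le)
    calc _ ≤ (C2 + D * C1 ^ 2) * (nq (T e z) (dual (H e) f z) + qq (dual (H e) f) z) * 1 := by
          rw [g2, Finset.sum_add_distrib]
          have : ∑ i, normSq (((1 - P e z) *ᵥ dual (H e) f z) i) ≤ _ := sub_nonneg.1 k2
          nlinarith [mul_nonneg (mul_nonneg d0.le (sq_nonneg C1)) k8, mul_nonneg k6 (by linarith : 0 ≤ C2)]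
      _ ≤ _ := (mul_le_mul_of_nonneg_left e3 (by positivity)).trans_eq (by ring)

theorem Aff.nq_rep (hH : M.Met H) (hT : M.Ten T) (hΨ : M.WtC G Ψ) (h : Aff G a) :
    ∃ Y : M.X → ℝ, Continuous Y ∧ M.Rep Y fun e z =>
      nq (T e z) (HS68.dual (H e) (a e) z) * Real.exp (-Ψ e z) := by
  have s := fun e he z hz => (met_loc hH (e := e) (z := z) he hz).smooth_dual (h.sm e he z hz)
  have w := T32.rep hΨ (N := fun e z =>
    star (HS68.dual (H e) (a e) z) ⬝ᵥ T e z *ᵥ HS68.dual (H e) (a e) z)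
    (fun e he e' he' x hx hx' => by
      beta_reduce
      rw [hT.cmp e he e' he' x hx hx', HS.sc5_form, h.dual hH e he e' he' x hx hx', star_smul,
        smul_dotProduct, Matrix.mulVec_smul, dotProduct_smul, smul_eq_mul, smul_eq_mul, mul_assoc])
    fun e he z hz => HS.sc5_cdot (s e he z hz) ((hT.sm e he z hz).mulVec (s e he z hz))
  refine ⟨_, continuous_re.comp w.2, fun e he z hz => ?_⟩
  beta_reduce
  rw [Function.comp_apply, w.1 e he z hz]
  exact re_mul_ofReal _ _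

theorem absorb [M.Cpt] (hn : 0 < n) (hH : M.Kae H) (dg : M.Deg H P T)
    (hP : M.All fun e z => ∀ l, dMb l (P e) z = 0) (hΨ : M.WtC G Ψ) (B : ℝ) :
    ∃ ε : ℝ, 0 < ε ∧ ∀ (ψ ρ : M.X → ℝ) (a : M.Fam ℂ), M.Sm ψ → (∀ x, ψ x ≤ B) → Continuous ρ →
      (∀ x, 0 < ρ x) → ∫ x, ρ x ^ (2 * n) ∂M.mu H ≤ ε → (M.All fun e z =>
        (M.hw Ψ e z + M.hs ψ e z + M.ric H e z - T e z +
          (ρ (e.symm z) * Real.exp (ψ (e.symm z))) • T e z).PosSemidef) → Aff G a →
      (M.All fun e z => (boxC M H (Ψ + fun e z => ψ (e.symm z))).ap a e z = 0) →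
      M.All fun e z => P e z *ᵥ dual (H e) (a e) z = dual (H e) (a e) z := by
  have hm := hH.toMet
  obtain ⟨V, -⟩ := (mCOV n M).2.2.1
  obtain ⟨-, -, op, -, hi, -⟩ := mMU n M H hm
  obtain ⟨C, hC⟩ := abs_le hn hm V
  choose K' K0 hK using loc_bd hH dg hP hΨ V
  obtain ⟨K, k0, k1⟩ : ∃ K : ℝ, 0 < K ∧ ∀ b, K' b ≤ K := ⟨∑ b, K' b + 1,
    add_pos_of_nonneg_of_pos (Finset.sum_nonneg fun b _ => (K0 b).le) one_pos,
    fun b => (BR.le_sum (fun b => (K0 b).le) b).trans (le_add_of_nonneg_right zero_le_one)⟩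
  obtain ⟨η, η0, hη⟩ : ∃ η : ℝ, 0 < η ∧ C * η * (K * Real.exp B) < K⁻¹ := by
    have : ContinuousAt (fun η : ℝ => C * η * (K * Real.exp B)) 0 := by fun_prop
    exact (eventually_mem_nhdsWithin.and ((this.eventually (gt_mem_nhds (by
      simpa using k0))).filter_mono nhdsWithin_le_nhds (f₁ := 𝓝[>] (0 : ℝ)))).exists
  refine ⟨η ^ (2 * n), by positivity, fun ψ ρ a sψ hB cρ ρ0 hε hcur ha h0 => ?_⟩
  obtain ⟨w1, w2⟩ := hΨ.addF sψ
  obtain ⟨Z, cZ, iZ, rZ⟩ := ha.boch hH w1 h0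
  obtain ⟨Y, cY, rY⟩ := ha.nq_rep hm dg.form.toTen hΨ
  have t0 : M.All fun e z => (T e z).PosSemidef := fun e he z hz => by
    simpa using (aBLK n M H P T dg).1 e he z hz
  have Y0 : ∀ x, 0 ≤ Y x := fun x => by
    rw [rY.at (Mf.ch_mem x) (Mf.mem_ch x)]
    exact mul_nonneg (nq_nonneg (t0.ch x) _) (Real.exp_pos _).le
  have hR : ∀ b, ∀ z ∈ Kb V b, g2 (fun w => (1 - P (V.e b) w) *ᵥ dual (H (V.e b)) (a (V.e b)) w) z ≤
      K * Real.exp B * (Z ((V.e b).symm z) + ρ ((V.e b).symm z) * Y ((V.e b).symm z)) := by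
    intro b z hz
    have he := V.mem b
    have ht := Kb_sub V b hz
    obtain ⟨q0, -, q1⟩ := hK b z hz _ (ha.sm _ he z ht)
    have q2 := nq_nonneg (hcur _ he z ht) (dual (H (V.e b)) (a (V.e b)) z)
    have q3 := nq_nonneg (t0 _ he z ht) (dual (H (V.e b)) (a (V.e b)) z)
    rw [nq_add, nq_sub, nq_sm] at q2
    rw [rZ _ he z ht, rY _ he z ht]
    beta_reduce
    rw [w2 _ he z ht, Pi.add_apply, Pi.add_apply, neg_add, Real.exp_add]
    have q4 : 1 ≤ Real.exp B * Real.exp (-ψ ((V.e b).symm z)) := by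
      rw [← Real.exp_add]
      exact Real.one_le_exp (by linarith [hB ((V.e b).symm z)])
    have q5 : Real.exp (ψ ((V.e b).symm z)) * Real.exp (-ψ ((V.e b).symm z)) = 1 := by
      rw [← Real.exp_add, add_neg_cancel, Real.exp_zero]
    have q6 := Real.exp_pos (-Ψ (V.e b) z)
    have q7 := Real.exp_pos (-ψ ((V.e b).symm z))
    generalize nq (T (V.e b) z) _ = t at *
    generalize nq (_ + M.ric H (V.e b) z) _ = t' at *
    generalize qq _ z = q at *
    generalize Real.exp (-Ψ (V.e b) z) = x at *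
    generalize Real.exp (-ψ _) = y at *
    generalize Real.exp (ψ _) = y' at *
    calc _ ≤ K * ((t + q) * x) * 1 := by
          rw [mul_one]
          exact q1.trans (mul_le_mul_of_nonneg_right (k1 b) (by positivity))
      _ ≤ K * ((t + q) * x) * (Real.exp B * y) := by gcongr
      _ = K * Real.exp B * ((t + q) * x * y) := by ring
      _ ≤ _ := by
          gcongr
          have := mul_nonneg q2 (mul_pos q6 q7).le
          have q8 : ρ ((V.e b).symm z) * y' * t * (x * y) = ρ ((V.e b).symm z) * (t * x) := by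
            linear_combination ρ ((V.e b).symm z) * t * x * q5
          nlinarith
  have cR : Continuous fun x => K * Real.exp B * (Z x + ρ x * Y x) := by fun_prop
  have R0 : ∀ x, 0 ≤ K * Real.exp B * (Z x + ρ x * Y x) := fun x => by
    obtain ⟨b, h1, h2⟩ := BR.kb_nhds V x
    have := hR b _ (mem_of_mem_nhds h2)
    rw [(V.e b).left_inv h1] at this
    exact le_trans (Finset.sum_nonneg fun _ _ => add_nonneg (normSq_nonneg _)
      (Finset.sum_nonneg fun _ _ => normSq_nonneg _)) this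
  have key := hC (fun b w => (1 - P (V.e b) w) *ᵥ dual (H (V.e b)) (a (V.e b)) w)
    (fun x => ENNReal.ofReal (K⁻¹ * Y x)) (fun x => ENNReal.ofReal (K * Real.exp B * (Z x + ρ x * Y x)))
    (fun x => ENNReal.ofReal (ρ x)) (by fun_prop) (by fun_prop)
    (fun b i z hz => contDiffAt_pi.1 (((smM_const 1).sub (dg.en.sm _ (V.mem b) z hz)).mulVec
      ((met_loc hm (V.mem b) hz).smooth_dual (ha.sm _ (V.mem b) z hz))) i)
    fun b z hz => ⟨ENNReal.ofReal_le_ofReal (by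
      rw [inv_mul_le_iff₀ k0, rY _ (V.mem b) z (Kb_sub V b hz)]
      exact (hK b z hz _ (ha.sm _ (V.mem b) z (Kb_sub V b hz))).2.1.trans
        (mul_le_mul_of_nonneg_right (k1 b) (Finset.sum_nonneg fun _ _ => normSq_nonneg _))),
      ENNReal.ofReal_le_ofReal (hR b z hz)⟩
  have cI : Continuous fun x => ρ x * Y x := cρ.mul cY
  have I0 : ∀ x, 0 ≤ ρ x * Y x := fun x => mul_nonneg (ρ0 x).le (Y0 x)
  have n0 : (0 : ℝ) < 2 * n := by positivity
  have e1 : (∫⁻ x, ENNReal.ofReal (ρ x) ^ (2 * n : ℝ) ∂M.mu H) ^ (1 / (2 * n : ℝ)) ≤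
      ENNReal.ofReal η := by
    have h1 : ∀ r : ℝ, 0 < r → ENNReal.ofReal r ^ (2 * n : ℝ) = ENNReal.ofReal (r ^ (2 * n)) :=
      fun r hr => by rw [ENNReal.ofReal_rpow_of_pos hr, ← Real.rpow_natCast]; norm_cast
    simp only [h1 _ (ρ0 _)]
    rw [← ofReal_integral_eq_lintegral_ofReal (hi _ _ (cρ.fun_pow _))
      (Eventually.of_forall fun x => (pow_pos (ρ0 x) _).le)]
    refine (ENNReal.rpow_le_rpow (ENNReal.ofReal_le_ofReal hε) (by positivity)).trans_eq ?_
    rw [← h1 _ η0, ← ENNReal.rpow_mul, mul_one_div_cancel n0.ne', ENNReal.rpow_one]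
  simp only [← ENNReal.ofReal_mul (ρ0 _).le, mul_left_comm (ρ _) K⁻¹] at key
  rw [← ofReal_integral_eq_lintegral_ofReal ((hi _ _ cI).const_mul _) (Eventually.of_forall fun x =>
    mul_nonneg (inv_pos.2 k0).le (I0 x)), ← ofReal_integral_eq_lintegral_ofReal (hi _ _ cR)
    (Eventually.of_forall R0), integral_const_mul, integral_const_mul,
    integral_add (hi _ _ cZ) (hi _ _ cI), iZ, zero_add] at key
  have I1 : 0 ≤ ∫ x, ρ x * Y x ∂M.mu H := integral_nonneg I0
  have e2 := key.trans (mul_le_mul_left (mul_le_mul_right e1 _) _)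
  rw [← ENNReal.ofReal_coe_nnreal, ← ENNReal.ofReal_mul C.coe_nonneg, ← ENNReal.ofReal_mul (by positivity),
    ENNReal.ofReal_le_ofReal_iff (by positivity), ← mul_assoc] at e2
  have I2 : ∫ x, ρ x * Y x ∂M.mu H = 0 :=
    le_antisymm (not_lt.1 fun h => (mul_lt_mul_of_pos_right hη h).not_ge e2) I1
  have I3 := (cI.ae_eq_iff_eq (M.mu H) continuous_zero).1
    ((integral_eq_zero_iff_of_nonneg I0 (hi _ _ cI)).1 I2)
  intro e he z hz
  have h1 := (mul_eq_zero.1 (congrFun I3 (e.symm z))).resolve_left (ρ0 _).ne'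
  rw [rY e he z hz] at h1
  have h2 := (mul_eq_zero.1 h1).resolve_right (Real.exp_pos _).ne'
  rw [deg_nq dg he hz] at h2
  have h3 : (1 - P e z) *ᵥ dual (H e) (a e) z = 0 := by_contra fun h =>
    (Complex.pos_iff.1 ((dg.pos e he z hz).dotProduct_mulVec_pos h)).1.ne' h2
  rw [Matrix.sub_mulVec, Matrix.one_mulVec, sub_eq_zero] at h3
  exact h3.symm

end Pool.Agent.Lib.DX
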