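import Pool.Agent.Lib.KP.SDefs

/-! Definitions used in the statement: local equations of divisors, log canonical pairs, and
sections over a divisor. -/

open scoped Topology ENNReal
open MeasureTheory

noncomputable section

namespace Pool.Agent.Lib.DX

open Pool.Agent.Lib.SV Pool.Agent.Lib.KP

variable (n : ℕ) {X ι : Type} [TopologicalSpace X] [ChartedSpace (E n) X]

/-- The functions `f i` on the sets `U i` are local equations of an effective divisor. -/
structure Eqns (U : ι → Set X) (f : ι → X → ℂ) : Prop where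
  hol : ∀ i, ∀ x ∈ U i, HolAt n 0 (f i) x
  unit : ∀ i k, ∃ u : X → ℂ, ∀ x ∈ U i ∩ U k, HolAt n 0 u x ∧ u x ≠ 0 ∧ f i x = u x * f k x

/-- `U` is an open covering, `f` and `d` are local equations of divisors `S` and `D`, and the pair
`(X, S + c D)` is log canonical: `|f i| ^ (-2 s) |d i| ^ (-2 t)` is locally integrable for
`0 ≤ s < 1` and `0 ≤ t < c`. -/
structure Lc (c : ℝ) (U : ι → Set X) (f d : ι → X → ℂ) : Prop where
  opn : ∀ i, IsOpen (U i)
  cov : ∀ x, ∃ i, x ∈ U i
  eqf : Eqns n U f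
  eqd : Eqns n U d
  lct : ∀ s t : ℝ, 0 ≤ s → s < 1 → 0 ≤ t → t < c → ∀ i, ∀ x ∈ U i,
    ∃ W ∈ 𝓝 (chartAt (E n) x x), ∫⁻ z in W, ‖f i ((chartAt (E n) x).symm z)‖ₑ ^ (-2 * s) *
      ‖d i ((chartAt (E n) x).symm z)‖ₑ ^ (-2 * t) < ⊤

/-- Near `x`, `s` is the product of `f` and a holomorphic section of `a K`. -/
def InId (a : ℕ) (f s : X → ℂ) (x : X) : Prop :=
  ∃ h : X → ℂ, ∀ᶠ y in 𝓝 x, HolAt n a h y ∧ s y = f y * h y

/-- `σ` represents a section over `S` of `a K + (F)`, where `S` has the local equations `f`: the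
meromorphic forms `σ i / F i` agree modulo the ideal of `S`. -/
structure SecOn (a : ℕ) (U : ι → Set X) (F f σ : ι → X → ℂ) : Prop where
  hol : ∀ i, ∀ x ∈ U i, HolAt n a (σ i) x
  glue : ∀ i k, ∀ x ∈ U i ∩ U k, InId n a (F k * f i) (σ i * F k - σ k * F i) x

end Pool.Agent.Lib.DX
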