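import Pool.Agent.Lib.HS32.MAll
import Pool.Agent.Lib.SV.Defs

/-! An inequality of Sobolev type with the `(0,1)` derivatives only. -/

open scoped Classical Topology ContDiff ComplexOrder Matrix ENNReal NNReal
open Set MeasureTheory Complex Metric Filter

noncomputable section

namespace Pool.Agent.Lib.DX

open Pool.Agent.Lib.SV (E nsq)
open Pool.Agent.Lib.HS32

variable {n : ℕ}

theorem cs_dz {q : E n → ℂ} (hc : HasCompactSupport q) (j : Fin n) :
    HasCompactSupport (dz j q) ∧ HasCompactSupport (dzb j q) := by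
  refine ⟨HasCompactSupport.intro hc fun z hz => ?_, HasCompactSupport.intro hc fun z hz => ?_⟩
  · rw [dz_congr (notMem_tsupport_iff_eventuallyEq.1 hz)]
    exact dz_const 0
  · rw [dzb_congr (notMem_tsupport_iff_eventuallyEq.1 hz)]
    exact dzb_const 0

theorem int_sq {q : E n → ℂ} (hq : ∀ z, ContDiffAt ℝ ∞ q z) (hc : HasCompactSupport q) :
    Integrable fun z => normSq (q z) :=
  (continuous_normSq.comp (continuous_iff_continuousAt.2 fun z =>
    (hq z).continuousAt)).integrable_of_hasCompactSupport (hc.comp_left normSq_zero)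

theorem ibp {q : E n → ℂ} (hq : ∀ z, ContDiffAt ℝ ∞ q z) (hc : HasCompactSupport q) (j : Fin n) :
    ∫ z, normSq (dz j q z) = ∫ z, normSq (dzb j q z) := by
  have h0 : ∀ a : E n → ℂ, ∀ z ∈ (univ : Set (E n)), z ∉ tsupport q → a z * star (q z) = 0 :=
    fun a z _ hz => by rw [image_eq_zero_of_notMem_tsupport hz, star_zero, mul_zero]
  obtain ⟨-, a1, -, a2⟩ := mIBPE n univ _ (fun z => dz j q z * star (q z)) isOpen_univ hc
    (subset_univ _) (fun z _ => (cd_dz (hq z) j).mul (cd_star (hq z))) (h0 _) j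
  obtain ⟨b1, -, b2, -⟩ := mIBPE n univ _ (fun z => dzb j q z * star (q z)) isOpen_univ hc
    (subset_univ _) (fun z _ => (cd_dzb (hq z) j).mul (cd_star (hq z))) (h0 _) j
  rw [integrableOn_univ] at a1 b1
  rw [setIntegral_univ] at a2 b2
  have e : ∀ z, dzb j (fun z => dz j q z * star (q z)) z - dz j (fun z => dzb j q z * star (q z)) z
      = ((normSq (dz j q z) - normSq (dzb j q z) : ℝ) : ℂ) := fun z => by
    have d := cd_diff (hq z)
    rw [dzb_mul (cd_diff (cd_dz (hq z) j)) (diff_star d),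
      dz_mul (cd_diff (cd_dzb (hq z) j)) (diff_star d), dzb_star d, dz_star d, dz_dzb (hq z),
      ofReal_sub, ← mul_conj, ← mul_conj]
    simp only [star_def]
    ring
  have h := integral_sub a1 b1
  simp only [e] at h
  rw [a2, b2, sub_zero, integral_complex_ofReal, ofReal_eq_zero,
    integral_sub (int_sq (fun z => cd_dz (hq z) j) (cs_dz hc j).1)
      (int_sq (fun z => cd_dzb (hq z) j) (cs_dz hc j).2)] at h
  linarith

theorem fd_le {q : E n → ℂ} {z : E n} (hq : DifferentiableAt ℝ q z) :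
    ‖fderiv ℝ (fun w => q w * star (q w)) z‖ ≤
      2 * n * normSq (q z) + ∑ l, normSq (dz l q z) + ∑ l, normSq (dzb l q z) := by
  have h0 : ∀ l, 0 ≤ normSq (dz l q z) ∧ 0 ≤ normSq (dzb l q z) := fun l =>
    ⟨normSq_nonneg _, normSq_nonneg _⟩
  have h1 : 2 * n * normSq (q z) + ∑ l, normSq (dz l q z) + ∑ l, normSq (dzb l q z) =
      ∑ l : Fin n, (2 * normSq (q z) + normSq (dz l q z) + normSq (dzb l q z)) := by
    simp only [Finset.sum_add_distrib, Finset.sum_const, Finset.card_univ, Fintype.card_fin,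
      nsmul_eq_mul]
    ring
  rw [h1]
  refine ContinuousLinearMap.opNorm_le_bound _ (Finset.sum_nonneg fun l _ => by
    linarith [normSq_nonneg (q z), (h0 l).1, (h0 l).2]) fun v => ?_
  have h2 : ‖fderiv ℝ q z v‖ ≤ ∑ l, (‖dz l q z‖ + ‖dzb l q z‖) * ‖v‖ := by
    rw [fderiv_eq_sum]
    refine norm_sum_le_of_le _ fun l _ => (norm_add_le _ _).trans ?_
    rw [norm_mul, norm_mul, norm_star, add_mul]
    gcongr <;> exact norm_le_pi_norm v l
  rw [fderiv_fun_mul hq (diff_star hq), add_apply, smul_apply, smul_apply, fderiv_star' hq]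
  refine (norm_add_le _ _).trans ?_
  rw [norm_smul, norm_smul, norm_star, norm_star, ← two_mul, ← mul_assoc]
  refine (mul_le_mul_of_nonneg_left h2 (by positivity)).trans ?_
  rw [Finset.mul_sum, Finset.sum_mul]
  refine Finset.sum_le_sum fun l _ => ?_
  rw [← mul_assoc]
  refine mul_le_mul_of_nonneg_right ?_ (norm_nonneg _)
  simp only [normSq_eq_norm_sq]
  nlinarith [sq_nonneg (‖q z‖ - ‖dz l q z‖), sq_nonneg (‖q z‖ - ‖dzb l q z‖)]

/-- The squared norms of the components and of their `(0,1)` derivatives. -/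
def g2 (q : E n → E n) (z : E n) : ℝ :=
  ∑ i, (normSq (q z i) + ∑ l, normSq (dzb l (fun w => q w i) z))

theorem sob (hn : 0 < n) : ∃ C : ℝ≥0, ∀ (q : E n → E n) (ρ : E n → ℝ≥0∞),
    (∀ i z, ContDiffAt ℝ ∞ (fun w => q w i) z) → (∀ i, HasCompactSupport fun w => q w i) →
    AEMeasurable ρ → ∫⁻ z, ρ z * ENNReal.ofReal (nsq (q z)) ≤
      C * (∫⁻ z, ρ z ^ (2 * n : ℝ)) ^ (1 / (2 * n : ℝ)) * ∫⁻ z, ENNReal.ofReal (g2 q z) := by
  have h1 : (1 : ℝ) < 2 * n := by
    have : (1 : ℝ) ≤ n := Nat.one_le_cast.2 hn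
    linarith
  have hp := Real.HolderConjugate.conjExponent h1
  set p := Real.conjExponent (2 * n : ℝ)
  have hr : (Module.finrank ℝ (E n) : ℝ) = 2 * n := by
    rw [Module.finrank_pi_fintype]
    simp [mul_comm]
  have p0 : 0 < p := hp.symm.pos
  refine ⟨lintegralPowLePowLIntegralFDerivConst (volume : Measure (E n)) p ^ (1 / p) *
    (2 * n + 2), fun q ρ hq hc hρ => ?_⟩
  let u : E n → ℂ := fun z => ∑ i, q z i * star (q z i)
  have u1 : ContDiff ℝ ∞ u := contDiff_iff_contDiffAt.2 fun z =>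
    ContDiffAt.sum fun i _ => (hq i z).mul (cd_star (hq i z))
  have u2 : HasCompactSupport u := by
    refine HasCompactSupport.intro (isCompact_iUnion hc) fun z hz => Finset.sum_eq_zero fun i _ => ?_
    rw [image_eq_zero_of_notMem_tsupport (f := fun w => q w i) fun h => hz (mem_iUnion.2 ⟨i, h⟩),
      zero_mul]
  have u3 : ∀ z, ENNReal.ofReal (nsq (q z)) = ‖u z‖ₑ := fun z => by
    have : u z = (nsq (q z) : ℝ) := by simp only [u, nsq, ofReal_sum, ← mul_conj, star_def]
    rw [this, ← ofReal_norm, norm_real,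
      Real.norm_of_nonneg (show 0 ≤ nsq (q z) from Finset.sum_nonneg fun i _ => normSq_nonneg _)]
  have g := lintegral_pow_le_pow_lintegral_fderiv volume (u1.of_le (by exact_mod_cast le_top)) u2
    (hr.symm ▸ hp)
  have i0 := fun i => int_sq (hq i) (hc i)
  have i1 := fun i l => int_sq (fun z => cd_dz (hq i z) l) (cs_dz (hc i) l).1
  have i2 := fun i l => int_sq (fun z => cd_dzb (hq i z) l) (cs_dz (hc i) l).2
  have i3 : Integrable (fderiv ℝ u) :=
    (u1.continuous_fderiv (by simp)).integrable_of_hasCompactSupport (u2.fderiv ℝ)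
  have j1 := fun i => integrable_finsetSum Finset.univ fun l _ => i1 i l
  have j2 := fun i => integrable_finsetSum Finset.univ fun l _ => i2 i l
  have i4 : Integrable (g2 q) := integrable_finsetSum _ fun i _ => (i0 i).add (j2 i)
  have g0 : ∀ z, 0 ≤ g2 q z := fun z => Finset.sum_nonneg fun i _ =>
    add_nonneg (normSq_nonneg _) (Finset.sum_nonneg fun l _ => normSq_nonneg _)
  have k : ∫ z, ‖fderiv ℝ u z‖ ≤ (2 * n + 2) * ∫ z, g2 q z := by
    have j3 := fun i => (((i0 i).const_mul (2 * n)).add (j1 i)).add (j2 i)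
    refine (integral_mono i3.norm (integrable_finsetSum Finset.univ fun i _ => j3 i)
      fun z => ?_).trans ?_
    · beta_reduce
      rw [fderiv_fun_sum fun i _ => cd_diff ((hq i z).mul (cd_star (hq i z)))]
      exact norm_sum_le_of_le _ fun i _ => fd_le (cd_diff (hq i z))
    · unfold g2
      rw [integral_finsetSum _ fun i _ => j3 i, integral_finsetSum
        (f := fun i z => normSq (q z i) + ∑ l, normSq (dzb l (fun w => q w i) z)) _
        fun i _ => (i0 i).add (j2 i), Finset.mul_sum]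
      refine Finset.sum_le_sum fun i _ => ?_
      rw [integral_add' (((i0 i).const_mul _).add (j1 i)) (j2 i),
        integral_add' ((i0 i).const_mul _) (j1 i), integral_add (i0 i) (j2 i), integral_const_mul,
        integral_finsetSum _ fun l _ => i1 i l, integral_finsetSum _ fun l _ => i2 i l]
      simp only [ibp (hq i) (hc i)]
      have a : 0 ≤ ∫ z, normSq (q z i) := integral_nonneg fun z => normSq_nonneg _
      have b : 0 ≤ ∑ l, ∫ z, normSq (dzb l (fun w => q w i) z) :=
        Finset.sum_nonneg fun l _ => integral_nonneg fun z => normSq_nonneg _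
      nlinarith [Nat.cast_nonneg (α := ℝ) n]
  have k' := ENNReal.ofReal_le_ofReal k
  rw [ofReal_integral_norm_eq_lintegral_enorm i3, ENNReal.ofReal_mul (by positivity),
    ofReal_integral_eq_lintegral_ofReal i4 (Eventually.of_forall g0)] at k'
  simp only [u3]
  refine (ENNReal.lintegral_mul_le_Lp_mul_Lq volume hp hρ
    u1.continuous.enorm.measurable.aemeasurable).trans ?_
  rw [mul_comm (((_ : ℝ≥0) : ℝ≥0∞)), mul_assoc]
  refine mul_le_mul_right ((ENNReal.rpow_le_rpow g (by positivity)).trans ?_) _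
  rw [ENNReal.mul_rpow_of_nonneg _ _ (by positivity), ← ENNReal.rpow_mul, mul_one_div_cancel p0.ne',
    ENNReal.rpow_one, ENNReal.coe_mul, ENNReal.coe_rpow_of_nonneg _ (by positivity), mul_assoc]
  refine mul_le_mul_right (k'.trans (le_of_eq ?_)) _
  congr 1
  rw [← ENNReal.ofReal_coe_nnreal]
  norm_num

end Pool.Agent.Lib.DX
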