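import Pool.Agent.Lib.KP.All
import Pool.Agent.Lib.DX.Aff

/-! Solvability of the equation of Poisson for sections. -/

open scoped Classical Topology ContDiff ComplexOrder Matrix ENNReal BoundedContinuousFunction
open Set MeasureTheory Complex Metric Filter

noncomputable section

namespace Pool.Agent.Lib.DX

open Pool.Agent.Lib.SV (E)
open Pool.Agent.Lib.HS32 Pool.Agent.Lib.HS21 Pool.Agent.Lib.KP
open Pool.Agent.Lib.HS21.BR (kb_sub kb_cpt kb_nhds le_sum)

variable {n : ℕ} {M : Mf n} {H : M.Fam (Mat n)} {G : M.Co} {φ : M.Fam ℝ} {s γ : M.Fam ℂ}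

theorem aff_of_sec (h : M.SecC G s) : Aff G s :=
  ⟨h.sm, fun e he e' he' x hx hx' => ⟨fun _ => 0, Eventually.of_forall fun _ =>
    differentiableAt_const _, (h.ev e he e' he' x hx hx').mono fun _ hw => hw.trans (add_zero _).symm⟩⟩

theorem ap_smul (L : Op M) (c : ℂ) {e : M.Ch} {z : E n} (h : ContDiffAt ℝ ∞ (s e) z) :
    L.ap (c • s) e z = c * L.ap s e z := by
  have h1 : (c • s) e = fun w => c * s e w := rfl
  simp only [Op.ap, lop, h1, hess_const_mul c h, dz_const_mul c (cd_diff h),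
    dzb_const_mul c (cd_diff h), Matrix.mul_smul, Matrix.trace_smul, smul_eq_mul, mul_add,
    Finset.mul_sum, mul_left_comm c]

/-- A section in the kernel is holomorphic. -/
theorem hol_of_box [M.Cpt] (hH : M.Kae H) (hw : M.WtC G φ) (hs : M.SecC G s)
    (h0 : M.All fun e z => (boxC M H φ).ap s e z = 0) : M.HSecC G s := by
  have hm := hH.toMet
  obtain ⟨-, -, op, -, hi, -⟩ := mMU n M H hm
  obtain ⟨-, -, -, -, -, -, r, c, p, -⟩ := aSC5 n M H G φ s s hm hw hs hs
  have g := aGRN2 n M H G φ s s hH hw hs hs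
  have h1 : ∀ x, spC M φ ((boxC M H φ).ap s) s x = 0 := fun x => by
    simp only [spC, Mf.ev, h0.ch x, zero_mul]
  simp only [h1, integral_zero, zero_eq_neg] at g
  have h2 := integral_re (hi ℂ _ c)
  rw [g, map_zero] at h2
  have c' := continuous_re.comp' c
  have h3 := (c'.ae_eq_iff_eq (M.mu H) continuous_zero).1
    ((integral_eq_zero_iff_of_nonneg (fun x => (p x).2.2.1) (hi _ _ c')).1 h2)
  refine ⟨hs, fun e he z hz => ((mHOL n _ z).1 (cd_diff (hs.sm e he z hz))).2 fun j => ?_⟩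
  have h4 := congrFun h3 (e.symm z)
  have h5 := r e he z hz
  beta_reduce at h4 h5
  rw [h5, re_mul_ofReal, Pi.zero_apply, mul_eq_zero_iff_right (Real.exp_pos _).ne'] at h4
  have h6 : HS.db M s e z = 0 := by_contra fun h =>
    (Complex.pos_iff.1 ((hm.pos e he z hz).inv.dotProduct_mulVec_pos h)).1.ne' h4
  exact congrFun h6 j

theorem gb_box [M.Cpt] (V : M.Cov) (hH : M.Met H) (hw : M.WtC G φ) (hγ : M.SecC G γ)
    {w : ℕ → M.Fam ℂ} {t c : ℕ → ℝ} (h1 : ∀ j, M.SecC G (w j)) (ht : ∀ j, |t j| ≤ 1 ∧ |c j| ≤ 1)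
    (hb : ∀ j, GS V (w j) 1)
    (heq : ∀ j, M.All fun e z => (boxC M H φ).ap (w j) e z = t j * w j e z + c j * γ e z)
    (k : ℕ) : GB M (k + 2) w := by
  have ok := aBOXOK n M H G φ hH hw
  refine KP21.eUNI M V ℕ G k (fun j => ⟨(boxC M H φ).W, 0, (boxC M H φ).b', fun _ _ => -(t j : ℂ)⟩)
    _ ?_ h1 (KP21.eBR.toGU M V ℕ G _ 1 h1 hb) ?_
  · intro e he z hz
    have hev : ∀ᶠ y in 𝓝 z, y ∈ e.target := e.open_target.mem_nhds hz
    exact ⟨fun p q => eFAM.fix ℕ k z _ (ok.smW e he z hz p q)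
      (hev.mono fun y hy => ok.smW e he y hy p q), eFAM2.leFix ℕ z _
      (fun p q => (ok.smW e he z hz p q).continuousAt) (hev.mono fun y hy => ok.pos e he y hy),
      fun _ => eFAM.scal ℕ k z (fun _ => 0) 0 fun _ => by simp,
      fun i => eFAM.fix ℕ k z _ (ok.smb' e he z hz i) (hev.mono fun y hy => ok.smb' e he y hy i),
      eFAM.scal ℕ k z (fun j => -(t j : ℂ)) 1 fun j => by simpa using (ht j).1⟩
  · intro e he z hz
    refine eFAM.congr ℕ k z _ _ ((e.open_target.eventually_mem hz).mono fun y hy j => ?_)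
      (eFAM.mul ℕ k z _ _ (eFAM.scal ℕ k z (fun j => (c j : ℂ)) 1 fun j => by
        simpa using (ht j).2) (KP21.eBR.fix M ℕ G k _ hγ e he z hz))
    have h2 := heq j e he y hy
    simp only [Op.ap, lop, boxC, Pi.zero_apply, zero_mul, add_zero] at h2 ⊢
    linear_combination -h2

theorem arz {K : Type} [MetricSpace K] [CompactSpace K] (B : ℝ) : IsCompact (closure
    {f : K →ᵇ ℂ | (∀ x, ‖f x‖ ≤ B) ∧ ∀ x y, dist (f x) (f y) ≤ B * √(dist x y)}) := by
  refine BoundedContinuousFunction.arzela_ascoli (closedBall 0 B) (isCompact_closedBall _ _) _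
    (fun f x hf => mem_closedBall_zero_iff.2 (hf.1 x))
    (Metric.equicontinuous_of_continuity_modulus (fun r => B * √r) ?_ _ fun x y f => f.2.2 x y)
  have h1 : Continuous fun r : ℝ => B * √r := by fun_prop
  simpa using h1.tendsto 0

/-- The equation of Poisson. -/
theorem solve [M.Cpt] (hH : M.Kae H) (hw : M.WtC G φ) (hγ : M.SecC G γ)
    (ho : ∀ s, M.HSecC G s → ∫ x, spC M φ γ s x ∂M.mu H = 0) :
    ∃ u, M.SecC G u ∧ M.All fun e z => (boxC M H φ).ap u e z = γ e z := by
  have hm := hH.toMet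
  obtain ⟨V, -⟩ := (mCOV n M).2.2.1
  obtain ⟨-, fin, op, -, hi, -⟩ := mMU n M H hm
  have sc := fun s s' => aSC5 n M H G φ s s' hm hw
  have ht : ∀ j : ℕ, (0 : ℝ) < 1 / (j + 1) := fun j => by positivity
  choose u u1 u2 using fun j : ℕ => aBOX n M H G φ _ _ hH hw hγ.neg (ht j)
  have : ∀ b, CompactSpace (Kb V b) := fun b => isCompact_iff_compactSpace.1 (kb_cpt V b)
  let R : ℕ → ∀ b, Kb V b →ᵇ ℂ := fun j b => BoundedContinuousFunction.mkOfCompact
    ⟨fun x => u j (V.e b) x, continuousOn_iff_continuous_domRestrict.1 fun z hz =>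
      ((u1 j).sm _ (V.mem b) z (kb_sub V b hz)).continuousAt.continuousWithinAt⟩
  let c : ℕ → ℝ := fun j => (1 + ‖R j‖)⁻¹
  have c0 : ∀ j, 0 < c j := fun j => by positivity
  have c2 : ∀ j, ‖(c j : ℂ) • R j‖ = 1 - c j := fun j => by
    have : 0 < 1 + ‖R j‖ := by positivity
    rw [norm_smul, norm_real, Real.norm_of_nonneg (c0 j).le]
    simp only [c]
    field_simp
    ring
  have c1 : ∀ j, c j ≤ 1 := fun j => by linarith [c2 j, norm_nonneg ((c j : ℂ) • R j)]
  let w : ℕ → M.Fam ℂ := fun j => (c j : ℂ) • u j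
  have w1 : ∀ j, M.SecC G (w j) := fun j => (u1 j).smul _
  have w2 : ∀ j, GS V (w j) 1 := fun j b z hz =>
    ((((c j : ℂ) • R j) b).norm_coe_le_norm ⟨z, hz⟩).trans ((norm_le_pi_norm _ b).trans
      (by linarith [c2 j, c0 j]))
  have w3 : ∀ j, M.All fun e z => (boxC M H φ).ap (w j) e z =
      (1 / (j + 1) : ℝ) * w j e z + c j * γ e z := fun j e he z hz => by
    have := u2 j e he z hz
    simp only [w, ap_smul _ _ ((u1 j).sm e he z hz), Pi.smul_apply, smul_eq_mul,
      Pi.neg_apply] at this ⊢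
    linear_combination -(c j : ℂ) * this
  have w4 : ∀ j s, M.HSecC G s → ∫ x, spC M φ (w j) s x ∂M.mu H = 0 := fun j s hs => by
    have h1 := (aff_of_sec (w1 j)).green hH hw hs
    have h2 : ∀ x, spC M φ ((boxC M H φ).ap (w j)) s x =
        (1 / (j + 1) : ℝ) * spC M φ (w j) s x + c j * spC M φ γ s x := fun x => by
      simp only [spC, Mf.ev, (w3 j).ch x]
      ring
    simp only [h2] at h1
    rw [integral_add ((hi _ _ (sc _ _ (w1 j) hs.toSecC).2.2.2.2.2.1).const_mul _)
      ((hi _ _ (sc _ _ hγ hs.toSecC).2.2.2.2.2.1).const_mul _), integral_const_mul,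
      integral_const_mul, ho s hs, mul_zero, add_zero] at h1
    exact (mul_eq_zero.1 h1).resolve_left (ofReal_ne_zero.2 (ht j).ne')
  have gb := gb_box V hm hw hγ w1 (fun j => ⟨by
    rw [abs_of_pos (ht _), div_le_one (by positivity)]
    exact le_add_of_nonneg_left (Nat.cast_nonneg _), by rw [abs_of_pos (c0 _)]; exact c1 _⟩) w2 w3
  have gb' : ∀ k, GB M k w := fun k e he z hz =>
    eFAM.anti ℕ (k + 2) k z _ (by omega) (gb k e he z hz)
  obtain ⟨B, -, hB⟩ := KP21.eBR.toGH M V ℕ 0 w (gb' 0)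
  obtain ⟨⟨σ, ρ⟩, -, κ, hκ, hl⟩ := (isCompact_Icc.prod (isCompact_univ_pi fun b =>
    arz (K := Kb V b) B)).tendsto_subseq (x := fun j => (c j, (c j : ℂ) • R j)) fun j =>
      ⟨⟨(c0 j).le, c1 j⟩, fun b _ => subset_closure ⟨fun x => (hB j b).1 x x.2, fun x y => by
        rw [dist_eq_norm, Subtype.dist_eq, dist_eq_norm]
        exact (hB j b).2 x x.2 y y.2⟩⟩
  have l1 : Tendsto (fun j => c (κ j)) atTop (𝓝 σ) := (continuous_fst.tendsto _).comp hl
  have l2 : Tendsto (fun j => (c (κ j) : ℂ) • R (κ j)) atTop (𝓝 ρ) :=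
    (continuous_snd.tendsto _).comp hl
  have l3 : ∀ b (x : Kb V b), Tendsto (fun j => w (κ j) (V.e b) x) atTop (𝓝 (ρ b x)) := fun b x =>
    ((continuous_eval_const x).tendsto _).comp (tendsto_pi_nhds.1 l2 b)
  let v : M.Fam ℂ := fun e z => limUnder atTop fun j => w (κ j) e z
  have l4 : M.All fun e z => Tendsto (fun j => w (κ j) e z) atTop (𝓝 (v e z)) := fun e he z hz => by
    obtain ⟨b, h1, h2⟩ := kb_nhds V (e.symm z)
    refine tendsto_nhds_limUnder ⟨_, ((l3 b ⟨_, mem_of_mem_nhds h2⟩).mul_const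
      (G.c (V.e b) e (e.symm z))).congr fun j => ?_⟩
    have := (w1 (κ j)).cmp _ (V.mem b) e he _ h1 (e.map_target hz)
    beta_reduce at this
    rw [e.right_inv hz] at this
    exact this.symm
  have l5 := fun e (he : e ∈ M.C) => eLIME e.target (fun j => w (κ j) e) (v e) e.open_target
    (fun z hz k => ⟨0, eFAM.re ℕ ℕ k z _ (fun j => κ (0 + j)) (gb' k e he z hz)⟩) (l4 e he)
  have v1 : M.SecC G v := ⟨fun e he z hz => (l5 e he).1 z hz, fun e he e' he' x hx hx' =>
    tendsto_nhds_unique (l4.at he' hx') (((l4.at he hx).mul_const _).congr fun j =>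
      ((w1 _).cmp e he e' he' x hx hx').symm)⟩
  have v2 : M.All fun e z => (boxC M H φ).ap v e z = σ * γ e z := fun e he z hz => by
    have h1 := ((continuous_ofReal.tendsto _).comp (tendsto_one_div_add_atTop_nhds_zero_nat.comp
      hκ.tendsto_atTop)).mul (l4 e he z hz)
    rw [ofReal_zero, zero_mul] at h1
    have h2 := h1.add (((continuous_ofReal.tendsto _).comp l1).mul_const (γ e z))
    rw [zero_add] at h2
    exact tendsto_nhds_unique (LIN.lop_lim _ _ _ _ (fun j => (w1 _).sm e he z hz) (v1.sm e he z hz)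
      fun l => (l5 e he).2 l z hz) (h2.congr fun j => (w3 _ e he z hz).symm)
  rcases eq_or_ne σ 0 with rfl | h0
  · exfalso
    have v3 := hol_of_box hH hw v1 fun e he z hz => by simpa using v2 e he z hz
    choose A A0 hA using fun b => BBD.up (kb_cpt V b)
      (f := fun z => ‖star (v (V.e b) z) * (Real.exp (-φ (V.e b) z) : ℝ)‖) fun z hz =>
        ((v1.sm _ (V.mem b) z (kb_sub V b hz)).continuousAt.star.mul (continuous_ofReal.continuousAt.comp
          (hw.sm _ (V.mem b) z (kb_sub V b hz)).continuousAt.neg.rexp)).norm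
    have h1 := tendsto_integral_of_dominated_convergence (μ := M.mu H)
      (F := fun j => spC M φ (w (κ j)) v) (f := spC M φ v v) (fun _ => ∑ b, A b)
      (fun j => (sc _ _ (w1 _) v1).2.2.2.2.2.1.aestronglyMeasurable) (integrable_const _)
      (fun j => Eventually.of_forall fun x => by
        obtain ⟨b, h1, h2⟩ := kb_nhds V x
        have h3 := (sc _ _ (w1 (κ j)) v1).2.2.2.2.1 _ (V.mem b) _ ((V.e b).map_source h1)
        beta_reduce at h3
        rw [(V.e b).left_inv h1] at h3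
        rw [h3, mul_assoc, norm_mul]
        exact (mul_le_of_le_one_left (norm_nonneg _) (w2 _ b _ (mem_of_mem_nhds h2))).trans
          ((hA b _ (mem_of_mem_nhds h2)).trans (le_sum (fun b => (A0 b).le) b)))
      (Eventually.of_forall fun x => ((l4.ch x).mul_const _).mul_const _)
    obtain ⟨-, -, -, q1, -, -, -, -, q2, -⟩ := sc _ _ v1 v1
    simp only [w4 _ v v3, tendsto_const_nhds_iff, fun x => (q2 x).2.1, integral_complex_ofReal] at h1
    have h2 := (q1.ae_eq_iff_eq (M.mu H) continuous_zero).1 ((integral_eq_zero_iff_of_nonneg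
      (fun x => (q2 x).1) (hi _ _ q1)).1 (ofReal_eq_zero.1 h1.symm))
    have h3 : ρ = 0 := by
      ext b x
      have h4 := kb_sub V b x.2
      rw [tendsto_nhds_unique (l3 b x) (l4 _ (V.mem b) _ h4)]
      by_contra h5
      refine Mf.nrC_ne.2 ((v1.ne_iff (V.mem b) ((V.e b).map_target h4)).2 ?_) (congrFun h2 _)
      rwa [(V.e b).right_inv h4]
    have h4 := l2.norm
    simp only [c2, h3, norm_zero] at h4
    have := tendsto_nhds_unique h4 (l1.const_sub 1)
    norm_num at this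
  · refine ⟨(σ : ℂ)⁻¹ • v, v1.smul _, fun e he z hz => ?_⟩
    beta_reduce
    rw [ap_smul _ _ (v1.sm e he z hz), v2 e he z hz, inv_mul_cancel_left₀ (ofReal_ne_zero.2 h0)]

end Pool.Agent.Lib.DX
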